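import Mathlib

/-!
# The completely multiplicative function which is `-1` at a given set of primes
-/

set_option autoImplicit false

namespace Pool.Agent.V8H33.NU

open Finset Filter

open Classical in
/-- the value at the primes -/
noncomputable def sgn (P : Set ℕ) (p : ℕ) : ℤ := if p ∈ P then -1 else 1

theorem sgn_val (P : Set ℕ) (p : ℕ) : sgn P p = 1 ∨ sgn P p = -1 := by
  unfold sgn
  split_ifs <;> simp

/-- the completely multiplicative function which is `-1` at the primes in `P` and `1` at the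
other primes -/
noncomputable def gP (P : Set ℕ) : ℕ →*₀ ℤ where
  toFun n := if n = 0 then 0 else n.factorization.prod (fun p e => sgn P p ^ e)
  map_zero' := by simp
  map_one' := by simp
  map_mul' m n := by
    rcases Nat.eq_zero_or_pos m with h | h
    · simp [h]
    rcases Nat.eq_zero_or_pos n with h' | h'
    · simp [h']
    have hm : m ≠ 0 := by omega
    have hn : n ≠ 0 := by omega
    rw [if_neg hm, if_neg hn, if_neg (Nat.mul_ne_zero hm hn), Nat.factorization_mul hm hn]
    exact Finsupp.prod_add_index' (fun _ => pow_zero _) (fun _ _ _ => pow_add _ _ _)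

theorem gP_apply (P : Set ℕ) {n : ℕ} (hn : n ≠ 0) :
    gP P n = n.factorization.prod (fun p e => sgn P p ^ e) := by
  show (if n = 0 then 0 else _) = _
  rw [if_neg hn]

theorem gP_prime (P : Set ℕ) {p : ℕ} (hp : p.Prime) : gP P p = sgn P p := by
  rw [gP_apply P hp.ne_zero, hp.factorization, Finsupp.prod_single_index (by simp), pow_one]

theorem gP_val (P : Set ℕ) {n : ℕ} (hn : n ≠ 0) : gP P n = 1 ∨ gP P n = -1 := by
  rw [gP_apply P hn, Finsupp.prod]
  have h : ∀ S : Finset ℕ, ∏ p ∈ S, sgn P p ^ (n.factorization p) = 1 ∨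
      ∏ p ∈ S, sgn P p ^ (n.factorization p) = -1 := by
    intro S
    classical
    induction S using Finset.induction_on with
    | empty => simp
    | insert p S hp ih =>
      rw [prod_insert hp]
      rcases sgn_val P p with h | h
      · rw [h, one_pow, one_mul]; exact ih
      · rw [h]
        rcases neg_one_pow_eq_or ℤ (n.factorization p) with h' | h' <;> rw [h'] <;>
          rcases ih with ih | ih <;> rw [ih] <;> simp
  exact h _

theorem gP_eq_prod (P : Set ℕ) {n b : ℕ} (hn : n ≠ 0)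
    (h : ∀ p : ℕ, p.Prime → b < p → p ∈ P → ¬ p ∣ n) :
    gP P n = ∏ p ∈ (range (b + 1)).filter Nat.Prime, sgn P p ^ (n.factorization p) := by
  classical
  rw [gP_apply P hn, Finsupp.prod]
  have h1 : ∏ p ∈ n.factorization.support, sgn P p ^ (n.factorization p) =
      ∏ p ∈ n.factorization.support ∪ (range (b + 1)).filter Nat.Prime,
        sgn P p ^ (n.factorization p) := by
    apply prod_subset subset_union_left
    intro p _ hp
    rw [Finsupp.notMem_support_iff] at hp
    rw [hp, pow_zero]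
  have h2 : ∏ p ∈ (range (b + 1)).filter Nat.Prime, sgn P p ^ (n.factorization p) =
      ∏ p ∈ n.factorization.support ∪ (range (b + 1)).filter Nat.Prime,
        sgn P p ^ (n.factorization p) := by
    apply prod_subset subset_union_right
    intro p hp hp'
    rw [mem_union] at hp
    rcases hp with hp | hp
    · have hpp : p.Prime := Nat.prime_of_mem_primeFactors hp
      have hpd : p ∣ n := Nat.dvd_of_mem_primeFactors hp
      have hbp : b < p := by
        by_contra hcon
        apply hp'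
        rw [mem_filter, mem_range]
        exact ⟨by omega, hpp⟩
      have : p ∉ P := fun hP => h p hpp hbp hP hpd
      unfold sgn
      rw [if_neg this, one_pow]
    · exact absurd hp hp'
  rw [h1, h2]

theorem factorization_add {p e n h : ℕ} (hp : p.Prime) (hn : n ≠ 0) (hh : p ^ e ∣ h)
    (hne : ¬ p ^ e ∣ n) : (n + h).factorization p = n.factorization p := by
  have hnh : n + h ≠ 0 := by omega
  have h1 : n.factorization p < e := by
    by_contra hcon
    push Not at hcon
    exact hne ((hp.pow_dvd_iff_le_factorization hn).2 hcon)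
  apply le_antisymm
  · by_contra hcon
    push Not at hcon
    have h2 : p ^ (n.factorization p + 1) ∣ n + h :=
      (hp.pow_dvd_iff_le_factorization hnh).2 hcon
    have h3 : p ^ (n.factorization p + 1) ∣ h := (pow_dvd_pow p (by omega)).trans hh
    have h4 : p ^ (n.factorization p + 1) ∣ n := (Nat.dvd_add_left h3).1 h2
    have := (hp.pow_dvd_iff_le_factorization hn).1 h4
    omega
  · rw [← hp.pow_dvd_iff_le_factorization hnh]
    exact dvd_add (Nat.ordProj_dvd n p) ((pow_dvd_pow p h1.le).trans hh)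

theorem gP_shift (P : Set ℕ) {n b e h : ℕ} (hn : n ≠ 0) (hh : (b.factorial) ^ e ∣ h)
    (h1 : ∀ p : ℕ, p.Prime → p ≤ b → ¬ p ^ e ∣ n)
    (h2 : ∀ p : ℕ, p.Prime → b < p → p ∈ P → ¬ p ∣ n)
    (h3 : ∀ p : ℕ, p.Prime → b < p → p ∈ P → ¬ p ∣ n + h) : gP P (n + h) = gP P n := by
  rw [gP_eq_prod P (by omega : n + h ≠ 0) h3, gP_eq_prod P hn h2]
  apply prod_congr rfl
  intro p hp
  rw [mem_filter, mem_range] at hp
  congr 1
  refine factorization_add hp.2 hn (dvd_trans ?_ hh) (h1 p hp.2 (by omega))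
  exact pow_dvd_pow_of_dvd (Nat.dvd_factorial hp.2.pos (by omega)) e

/-- the exceptional set of integers -/
def Exc (P : Set ℕ) (b e : ℕ) {k : ℕ} (h : Fin k → ℕ) (n : ℕ) : Prop :=
  (∃ p : ℕ, p.Prime ∧ p ≤ b ∧ p ^ e ∣ n) ∨ (∃ p : ℕ, p.Prime ∧ b < p ∧ p ∈ P ∧ p ∣ n) ∨
    ∃ i, ∃ p : ℕ, p.Prime ∧ b < p ∧ p ∈ P ∧ p ∣ n + h i

theorem prod_eq_one (P : Set ℕ) (b e : ℕ) {k : ℕ} (hk : Even k) (h : Fin k → ℕ)
    (hh : ∀ i, (b.factorial) ^ e ∣ h i) {n : ℕ} (hn : n ≠ 0) (hE : ¬ Exc P b e h n) :
    ∏ i, ((gP P (n + h i) : ℤ) : ℝ) = 1 := by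
  have h1 : ∀ i, gP P (n + h i) = gP P n := by
    intro i
    apply gP_shift P hn (hh i)
    · intro p hp hpb hd
      exact hE (Or.inl ⟨p, hp, hpb, hd⟩)
    · intro p hp hpb hP hd
      exact hE (Or.inr (Or.inl ⟨p, hp, hpb, hP, hd⟩))
    · intro p hp hpb hP hd
      exact hE (Or.inr (Or.inr ⟨i, p, hp, hpb, hP, hd⟩))
  simp only [h1, prod_const, card_univ, Fintype.card_fin]
  obtain ⟨m, hm⟩ := hk
  rw [hm, ← two_mul, pow_mul]
  rcases gP_val P hn with h' | h' <;> rw [h'] <;> simp

theorem prod_bound (P : Set ℕ) {k : ℕ} (h : Fin k → ℕ) (n : ℕ) :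
    |∏ i, ((gP P (n + h i) : ℤ) : ℝ)| ≤ 1 := by
  rw [abs_prod]
  apply prod_le_one (fun _ _ => abs_nonneg _)
  intro i _
  rcases Nat.eq_zero_or_pos (n + h i) with h0 | h0
  · rw [h0, map_zero]; simp
  · rcases gP_val P (by omega : n + h i ≠ 0) with h' | h' <;> rw [h'] <;> simp

end Pool.Agent.V8H33.NU
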