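import Pool.Agent.V8H33.NU.Seq
import Pool.Agent.V8H33.NU.G

/-!
# The exceptional integers are rare
-/

set_option autoImplicit false

namespace Pool.Agent.V8H33.NU

open Finset Filter

theorem sum_biUnion_le {ι : Type} [DecidableEq ι] (s : Finset ι) (t : ι → Finset ℕ) (f : ℕ → ℝ)
    (hf : ∀ n, 0 ≤ f n) : ∑ n ∈ s.biUnion t, f n ≤ ∑ i ∈ s, ∑ n ∈ t i, f n := by
  induction s using Finset.induction_on with
  | empty => simp
  | insert i s hi ih =>
    rw [biUnion_insert, sum_insert hi]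
    have := sum_union_inter (s₁ := t i) (s₂ := s.biUnion t) (f := f)
    have h0 : (0:ℝ) ≤ ∑ n ∈ t i ∩ s.biUnion t, f n := sum_nonneg fun n _ => hf n
    linarith

theorem card_dvd_shift (N h p : ℕ) (hp : 0 < p) :
    (((Icc 1 N).filter (fun n => p ∣ n + h)).card : ℝ) ≤ N / p + 1 := by
  have h1 : ((Icc 1 N).filter (fun n => p ∣ n + h)).card ≤
      ((Ioc h (N + h)).filter (fun n => p ∣ n)).card := by
    apply card_le_card_of_injOn (fun n => n + h)
    · intro n hn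
      rw [mem_coe, mem_filter, mem_Icc] at hn
      show n + h ∈ _
      rw [mem_coe, mem_filter, mem_Ioc]
      exact ⟨⟨by omega, by omega⟩, hn.2⟩
    · intro a _ b _ hab
      exact Nat.add_right_cancel hab
  have h2 : ((Ioc 0 (N + h)).filter (fun n => p ∣ n)).card =
      ((Ioc 0 h).filter (fun n => p ∣ n)).card + ((Ioc h (N + h)).filter (fun n => p ∣ n)).card := by
    rw [← card_union_of_disjoint]
    · rw [← filter_union, Ioc_union_Ioc_eq_Ioc (Nat.zero_le _) (by omega)]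
    · apply disjoint_filter_filter
      rw [Finset.disjoint_left]
      intro x hx hy
      rw [mem_Ioc] at hx hy
      omega
  rw [Nat.Ioc_filter_dvd_card_eq_div, Nat.Ioc_filter_dvd_card_eq_div, Nat.add_div hp] at h2
  have h3 : ((Icc 1 N).filter (fun n => p ∣ n + h)).card ≤ N / p + 1 := by
    split_ifs at h2 <;> omega
  have h4 : ((N / p : ℕ) : ℝ) ≤ (N : ℝ) / p := Nat.cast_div_le
  have h5 : (((Icc 1 N).filter (fun n => p ∣ n + h)).card : ℝ) ≤ ((N / p : ℕ) : ℝ) + 1 := by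
    exact_mod_cast h3
  linarith

theorem card_dvd_pow (N b e : ℕ) :
    (∑ p ∈ (range (b + 1)).filter Nat.Prime, (((Icc 1 N).filter (fun n => p ^ e ∣ n)).card : ℝ)) ≤
      b * N / 2 ^ e := by
  have h1 : ∀ p ∈ (range (b + 1)).filter Nat.Prime,
      (((Icc 1 N).filter (fun n => p ^ e ∣ n)).card : ℝ) ≤ N / 2 ^ e := by
    intro p hp
    rw [mem_filter] at hp
    have h2 : ((Icc 1 N).filter (fun n => p ^ e ∣ n)).card = N / p ^ e := by
      have : Icc 1 N = Ioc 0 N := by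
        ext x; rw [mem_Icc, mem_Ioc]; omega
      rw [this, Nat.Ioc_filter_dvd_card_eq_div]
    rw [h2]
    refine Nat.cast_div_le.trans ?_
    push_cast
    apply div_le_div_of_nonneg_left (by positivity) (by positivity)
    apply pow_le_pow_left₀ (by norm_num)
    exact_mod_cast hp.2.two_le
  have h3 : ((range (b + 1)).filter Nat.Prime).card ≤ b := by
    have : (range (b + 1)).filter Nat.Prime ⊆ Ioc 0 b := by
      intro p hp
      rw [mem_filter, mem_range] at hp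
      rw [mem_Ioc]
      exact ⟨hp.2.pos, by omega⟩
    simpa using card_le_card this
  calc _ ≤ ∑ _p ∈ (range (b + 1)).filter Nat.Prime, (N : ℝ) / 2 ^ e := sum_le_sum h1
    _ = ((range (b + 1)).filter Nat.Prime).card * ((N : ℝ) / 2 ^ e) := by
        rw [sum_const, nsmul_eq_mul]
    _ ≤ b * ((N : ℝ) / 2 ^ e) := by
        apply mul_le_mul_of_nonneg_right _ (by positivity)
        exact_mod_cast h3
    _ = _ := by ring

theorem harm_le (Y : ℕ) : ∑ m ∈ Icc 1 Y, 1 / (m : ℝ) ≤ 1 + Real.log Y := by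
  have h := harmonic_le_one_add_log Y
  rw [harmonic_eq_sum_Icc] at h
  push_cast at h
  simpa [one_div] using h

theorem dvd_harm (Y d : ℕ) (hd : 1 ≤ d) :
    ∑ m ∈ (Icc 1 Y).filter (fun m => d ∣ m), 1 / (m : ℝ) ≤ (1 + Real.log Y) / d := by
  have hd0 : (0:ℝ) < d := by exact_mod_cast hd
  have h1 : ∑ m ∈ (Icc 1 Y).filter (fun m => d ∣ m), 1 / (m : ℝ) ≤
      ∑ j ∈ Icc 1 Y, 1 / ((d : ℝ) * j) := by
    have h2 : ((Icc 1 Y).filter (fun m => d ∣ m)) ⊆ (Icc 1 Y).image (fun j => d * j) := by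
      intro m hm
      rw [mem_filter, mem_Icc] at hm
      obtain ⟨⟨hm1, hm2⟩, j, hj⟩ := hm
      rw [mem_image]
      refine ⟨j, ?_, hj.symm⟩
      rw [mem_Icc]
      constructor
      · rcases Nat.eq_zero_or_pos j with h | h
        · rw [h, mul_zero] at hj; omega
        · exact h
      · have : j ≤ d * j := Nat.le_mul_of_pos_left j hd
        omega
    refine (sum_le_sum_of_subset_of_nonneg h2 (fun _ _ _ => by positivity)).trans ?_
    rw [sum_image (by
      intro a _ b _ hab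
      exact Nat.eq_of_mul_eq_mul_left hd hab)]
    apply sum_le_sum
    intro j _
    push_cast
    exact le_rfl
  refine h1.trans ?_
  have h3 : ∑ j ∈ Icc 1 Y, 1 / ((d : ℝ) * j) = (∑ j ∈ Icc 1 Y, 1 / (j : ℝ)) / d := by
    rw [sum_div]
    apply sum_congr rfl
    intro j _
    rw [div_div, mul_comm]
  rw [h3]
  exact div_le_div_of_nonneg_right (harm_le Y) hd0.le

theorem harm_pow (Y b e : ℕ) (hY : 1 ≤ Y) :
    (∑ p ∈ (range (b + 1)).filter Nat.Prime,
      ∑ m ∈ (Icc 1 Y).filter (fun m => p ^ e ∣ m), 1 / (m : ℝ)) ≤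
      b / 2 ^ e * (1 + Real.log Y) := by
  have hlY : 0 ≤ Real.log Y := Real.log_nonneg (by exact_mod_cast hY)
  have h1 : ∀ p ∈ (range (b + 1)).filter Nat.Prime,
      ∑ m ∈ (Icc 1 Y).filter (fun m => p ^ e ∣ m), 1 / (m : ℝ) ≤ (1 + Real.log Y) / 2 ^ e := by
    intro p hp
    rw [mem_filter] at hp
    refine (dvd_harm Y (p ^ e) (Nat.pos_of_ne_zero (pow_ne_zero _ hp.2.ne_zero))).trans ?_
    push_cast
    apply div_le_div_of_nonneg_left (by positivity) (by positivity)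
    apply pow_le_pow_left₀ (by norm_num)
    exact_mod_cast hp.2.two_le
  have h3 : ((range (b + 1)).filter Nat.Prime).card ≤ b := by
    have : (range (b + 1)).filter Nat.Prime ⊆ Ioc 0 b := by
      intro p hp
      rw [mem_filter, mem_range] at hp
      rw [mem_Ioc]
      exact ⟨hp.2.pos, by omega⟩
    simpa using card_le_card this
  calc _ ≤ ∑ _p ∈ (range (b + 1)).filter Nat.Prime, (1 + Real.log Y) / 2 ^ e := sum_le_sum h1
    _ = ((range (b + 1)).filter Nat.Prime).card * ((1 + Real.log Y) / 2 ^ e) := by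
        rw [sum_const, nsmul_eq_mul]
    _ ≤ b * ((1 + Real.log Y) / 2 ^ e) := by
        apply mul_le_mul_of_nonneg_right _ (by positivity)
        exact_mod_cast h3
    _ = _ := by ring

section

variable {Z : ℕ → ℕ → ℕ} {z b : ℕ → ℕ}

open Classical in
/-- the relevant primes -/
noncomputable def SP (z b : ℕ → ℕ) (i N : ℕ) : Finset ℕ :=
  (Icc 1 (2 * N)).filter (fun p => p.Prime ∧ b i < p ∧ p ∈ PS z b)

theorem mem_SP {i N p : ℕ} (hp : p ∈ SP z b i N) : (1 ≤ p ∧ p ≤ 2 * N) ∧ p.Prime ∧ b i < p ∧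
    p ∈ PS z b := by
  classical
  unfold SP at hp
  rw [mem_filter, mem_Icc] at hp
  exact hp

theorem SP_sum (hB : Blocks Z z b) (i N : ℕ) (hN : 2 * N ≤ z (i + 3)) :
    ∑ p ∈ SP z b i N, 1 / (p : ℝ) ≤ 2 / ((i : ℝ) + 2) := by
  apply hB.sum_two i
  intro p hp
  replace hp := mem_SP hp
  exact ⟨hp.2.2.2, hp.2.2.1, by omega⟩

open Classical in
theorem shift_card (hB : Blocks Z z b) (i N h : ℕ) (hN : 2 * N ≤ z (i + 3)) (hh : h ≤ N) :
    (((Icc 1 N).filter (fun n => ∃ p : ℕ, p.Prime ∧ b i < p ∧ p ∈ PS z b ∧ p ∣ n + h)).card : ℝ) ≤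
      6 * N / ((i : ℝ) + 2) := by
  have h1 : (Icc 1 N).filter (fun n => ∃ p : ℕ, p.Prime ∧ b i < p ∧ p ∈ PS z b ∧ p ∣ n + h) ⊆
      (SP z b i N).biUnion (fun p => (Icc 1 N).filter (fun n => p ∣ n + h)) := by
    intro n hn
    rw [mem_filter, mem_Icc] at hn
    obtain ⟨⟨hn1, hn2⟩, p, hp, hbp, hpP, hpd⟩ := hn
    rw [mem_biUnion]
    refine ⟨p, ?_, ?_⟩
    · unfold SP
      rw [mem_filter, mem_Icc]
      have := Nat.le_of_dvd (by omega) hpd
      exact ⟨⟨hp.pos, by omega⟩, hp, hbp, hpP⟩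
    · rw [mem_filter, mem_Icc]
      exact ⟨⟨hn1, hn2⟩, hpd⟩
  have h2 := (card_le_card h1).trans card_biUnion_le
  have h3 : (((Icc 1 N).filter (fun n => ∃ p : ℕ, p.Prime ∧ b i < p ∧ p ∈ PS z b ∧
      p ∣ n + h)).card : ℝ) ≤
      ∑ p ∈ SP z b i N, (((Icc 1 N).filter (fun n => p ∣ n + h)).card : ℝ) := by
    exact_mod_cast h2
  refine h3.trans ?_
  have h4 : ∀ p ∈ SP z b i N, (((Icc 1 N).filter (fun n => p ∣ n + h)).card : ℝ) ≤
      3 * N * (1 / (p : ℝ)) := by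
    intro p hp
    replace hp := mem_SP hp
    have hp0 : (0:ℝ) < p := by exact_mod_cast hp.2.1.pos
    refine (card_dvd_shift N h p hp.2.1.pos).trans ?_
    have h5 : (p : ℝ) ≤ 2 * N := by exact_mod_cast hp.1.2
    rw [mul_one_div, div_add_one hp0.ne']
    apply div_le_div_of_nonneg_right _ hp0.le
    linarith
  refine (sum_le_sum h4).trans ?_
  rw [← mul_sum]
  have h5 := mul_le_mul_of_nonneg_left (SP_sum hB i N hN) (show (0:ℝ) ≤ 3 * N by positivity)
  refine h5.trans (le_of_eq ?_)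
  ring

open Classical in
theorem exc_card (hB : Blocks Z z b) (i e : ℕ) (he : (i + 1) * b i ≤ 2 ^ e) (k : ℕ)
    (h : Fin k → ℕ) (N : ℕ) (hN : 2 * N ≤ z (i + 3)) (hh : ∀ j, h j ≤ N) :
    (((Icc 1 N).filter (fun n => Exc (PS z b) (b i) e h n)).card : ℝ) ≤
      (6 * k + 7) * N / ((i : ℝ) + 1) := by
  have h1 : (Icc 1 N).filter (fun n => Exc (PS z b) (b i) e h n) ⊆
      (((range (b i + 1)).filter Nat.Prime).biUnion (fun p => (Icc 1 N).filter (fun n => p ^ e ∣ n))) ∪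
      (((Icc 1 N).filter (fun n => ∃ p : ℕ, p.Prime ∧ b i < p ∧ p ∈ PS z b ∧ p ∣ n + 0)) ∪
      ((univ : Finset (Fin k)).biUnion (fun j => (Icc 1 N).filter (fun n => ∃ p : ℕ, p.Prime ∧
        b i < p ∧ p ∈ PS z b ∧ p ∣ n + h j)))) := by
    intro n hn
    rw [mem_filter] at hn
    rw [mem_union, mem_union, mem_biUnion, mem_biUnion]
    rcases hn.2 with ⟨p, hp, hpb, hpd⟩ | ⟨p, hp, hpb, hpP, hpd⟩ | ⟨j, p, hp, hpb, hpP, hpd⟩
    · left
      refine ⟨p, ?_, ?_⟩
      · rw [mem_filter, mem_range]; exact ⟨by omega, hp⟩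
      · rw [mem_filter]; exact ⟨hn.1, hpd⟩
    · right; left
      rw [mem_filter]
      exact ⟨hn.1, p, hp, hpb, hpP, hpd⟩
    · right; right
      refine ⟨j, mem_univ _, ?_⟩
      rw [mem_filter]
      exact ⟨hn.1, p, hp, hpb, hpP, hpd⟩
  have h2 := (card_le_card h1).trans ((card_union_le _ _).trans
    (add_le_add card_biUnion_le ((card_union_le _ _).trans (add_le_add le_rfl card_biUnion_le))))
  have h3 : (((Icc 1 N).filter (fun n => Exc (PS z b) (b i) e h n)).card : ℝ) ≤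
      (∑ p ∈ (range (b i + 1)).filter Nat.Prime, (((Icc 1 N).filter (fun n => p ^ e ∣ n)).card : ℝ)) +
      ((((Icc 1 N).filter (fun n => ∃ p : ℕ, p.Prime ∧ b i < p ∧ p ∈ PS z b ∧ p ∣ n + 0)).card : ℝ) +
      ∑ j : Fin k, (((Icc 1 N).filter (fun n => ∃ p : ℕ, p.Prime ∧ b i < p ∧ p ∈ PS z b ∧
        p ∣ n + h j)).card : ℝ)) := by exact_mod_cast h2
  have h4 := card_dvd_pow N (b i) e
  have h5 := shift_card hB i N 0 hN (Nat.zero_le _)
  have h6 : ∑ j : Fin k, (((Icc 1 N).filter (fun n => ∃ p : ℕ, p.Prime ∧ b i < p ∧ p ∈ PS z b ∧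
        p ∣ n + h j)).card : ℝ) ≤ k * (6 * N / ((i : ℝ) + 2)) := by
    refine (sum_le_sum (fun j _ => shift_card hB i N (h j) hN (hh j))).trans ?_
    rw [sum_const, card_univ, Fintype.card_fin, nsmul_eq_mul]
  have h7 : (b i : ℝ) * N / 2 ^ e ≤ N / ((i : ℝ) + 1) := by
    rw [div_le_div_iff₀ (by positivity) (by positivity)]
    have : ((i : ℝ) + 1) * b i ≤ 2 ^ e := by exact_mod_cast he
    have hN0 : (0:ℝ) ≤ N := by positivity
    nlinarith
  have h8 : 6 * (N : ℝ) / ((i : ℝ) + 2) ≤ 6 * N / ((i : ℝ) + 1) := by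
    apply div_le_div_of_nonneg_left (by positivity) (by positivity)
    linarith
  have h9 : (k : ℝ) * (6 * N / ((i : ℝ) + 2)) ≤ k * (6 * N / ((i : ℝ) + 1)) :=
    mul_le_mul_of_nonneg_left h8 (by positivity)
  have h10 : (6 * (k : ℝ) + 7) * N / ((i : ℝ) + 1) =
      N / ((i : ℝ) + 1) + (6 * N / ((i : ℝ) + 1) + k * (6 * N / ((i : ℝ) + 1))) := by ring
  rw [h10]
  linarith

open Classical in
theorem shift_harm (hB : Blocks Z z b) (i N N0 h : ℕ) (hN : 2 * N ≤ z (i + 3)) (hh : h ≤ N0)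
    (hN1 : 1 ≤ N) :
    ∑ n ∈ (Ioc N0 N).filter (fun n => ∃ p : ℕ, p.Prime ∧ b i < p ∧ p ∈ PS z b ∧ p ∣ n + h),
      1 / (n : ℝ) ≤ 4 / ((i : ℝ) + 2) * (1 + Real.log (2 * N)) := by
  have hl : 0 ≤ Real.log (2 * (N : ℝ)) := by
    apply Real.log_nonneg
    have : (1:ℝ) ≤ N := by exact_mod_cast hN1
    linarith
  have h1 : (Ioc N0 N).filter (fun n => ∃ p : ℕ, p.Prime ∧ b i < p ∧ p ∈ PS z b ∧ p ∣ n + h) ⊆
      (SP z b i N).biUnion (fun p => (Ioc N0 N).filter (fun n => p ∣ n + h)) := by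
    intro n hn
    rw [mem_filter, mem_Ioc] at hn
    obtain ⟨⟨hn1, hn2⟩, p, hp, hbp, hpP, hpd⟩ := hn
    rw [mem_biUnion]
    refine ⟨p, ?_, ?_⟩
    · unfold SP
      rw [mem_filter, mem_Icc]
      have := Nat.le_of_dvd (by omega) hpd
      exact ⟨⟨hp.pos, by omega⟩, hp, hbp, hpP⟩
    · rw [mem_filter, mem_Ioc]
      exact ⟨⟨hn1, hn2⟩, hpd⟩
  refine (sum_le_sum_of_subset_of_nonneg h1 (fun _ _ _ => by positivity)).trans ?_
  refine (sum_biUnion_le _ _ _ (fun n => by positivity)).trans ?_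
  have h2 : ∀ p ∈ SP z b i N, ∑ n ∈ (Ioc N0 N).filter (fun n => p ∣ n + h), 1 / (n : ℝ) ≤
      2 * (1 + Real.log (2 * N)) * (1 / (p : ℝ)) := by
    intro p hp
    replace hp := mem_SP hp
    have h3 := dvd_harm (2 * N) p hp.2.1.pos
    push_cast at h3
    have h4 : ∑ n ∈ (Ioc N0 N).filter (fun n => p ∣ n + h), 1 / (n : ℝ) ≤
        2 * ∑ m ∈ (Icc 1 (2 * N)).filter (fun m => p ∣ m), 1 / (m : ℝ) := by
      rw [mul_sum]
      have h5 : ∑ n ∈ (Ioc N0 N).filter (fun n => p ∣ n + h), 1 / (n : ℝ) ≤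
          ∑ n ∈ (Ioc N0 N).filter (fun n => p ∣ n + h), 2 * (1 / ((n + h : ℕ) : ℝ)) := by
        apply sum_le_sum
        intro n hn
        rw [mem_filter, mem_Ioc] at hn
        have hn0 : (0:ℝ) < n := by
          have : 0 < n := by omega
          exact_mod_cast this
        have hhn : (h : ℝ) ≤ n := by
          have : h ≤ n := by omega
          exact_mod_cast this
        push_cast
        rw [mul_one_div, div_le_div_iff₀ hn0 (by positivity)]
        linarith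
      refine h5.trans ?_
      have h6 : ∑ n ∈ (Ioc N0 N).filter (fun n => p ∣ n + h), 2 * (1 / ((n + h : ℕ) : ℝ)) =
          ∑ m ∈ ((Ioc N0 N).filter (fun n => p ∣ n + h)).image (fun n => n + h),
            2 * (1 / (m : ℝ)) := by
        rw [sum_image (by
          intro a _ b _ hab
          exact Nat.add_right_cancel hab)]
      rw [h6]
      apply sum_le_sum_of_subset_of_nonneg
      · intro m hm
        rw [mem_image] at hm
        obtain ⟨n, hn, rfl⟩ := hm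
        rw [mem_filter, mem_Ioc] at hn
        rw [mem_filter, mem_Icc]
        exact ⟨⟨by omega, by omega⟩, hn.2⟩
      · intro _ _ _
        positivity
    refine h4.trans ?_
    refine (mul_le_mul_of_nonneg_left h3 (by norm_num)).trans (le_of_eq ?_)
    ring
  refine (sum_le_sum h2).trans ?_
  rw [← mul_sum]
  have h5 := mul_le_mul_of_nonneg_left (SP_sum hB i N hN)
    (show (0:ℝ) ≤ 2 * (1 + Real.log (2 * N)) by positivity)
  refine h5.trans (le_of_eq ?_)
  ring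

open Classical in
theorem exc_harm (hB : Blocks Z z b) (i e : ℕ) (he : (i + 1) * b i ≤ 2 ^ e) (k : ℕ)
    (h : Fin k → ℕ) (N N0 : ℕ) (hN : 2 * N ≤ z (i + 3)) (hh : ∀ j, h j ≤ N0) (hN1 : 1 ≤ N) :
    ∑ n ∈ (Icc 1 N).filter (fun n => Exc (PS z b) (b i) e h n), 1 / (n : ℝ) ≤
      (1 + Real.log N0) + (4 * k + 5) / ((i : ℝ) + 1) * (1 + Real.log (2 * N)) := by
  have hl : 0 ≤ Real.log (2 * (N : ℝ)) := by
    apply Real.log_nonneg
    have : (1:ℝ) ≤ N := by exact_mod_cast hN1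
    linarith
  have h1 : (Icc 1 N).filter (fun n => Exc (PS z b) (b i) e h n) ⊆
      (Icc 1 N0) ∪
      ((((range (b i + 1)).filter Nat.Prime).biUnion (fun p => (Icc 1 N).filter (fun n => p ^ e ∣ n))) ∪
      (((Ioc N0 N).filter (fun n => ∃ p : ℕ, p.Prime ∧ b i < p ∧ p ∈ PS z b ∧ p ∣ n + 0)) ∪
      ((univ : Finset (Fin k)).biUnion (fun j => (Ioc N0 N).filter (fun n => ∃ p : ℕ, p.Prime ∧
        b i < p ∧ p ∈ PS z b ∧ p ∣ n + h j))))) := by
    intro n hn
    rw [mem_filter, mem_Icc] at hn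
    rw [mem_union, mem_union, mem_union, mem_biUnion, mem_biUnion]
    rcases Nat.lt_or_ge N0 n with hn0 | hn0
    swap
    · left
      rw [mem_Icc]
      omega
    right
    rcases hn.2 with ⟨p, hp, hpb, hpd⟩ | ⟨p, hp, hpb, hpP, hpd⟩ | ⟨j, p, hp, hpb, hpP, hpd⟩
    · left
      refine ⟨p, ?_, ?_⟩
      · rw [mem_filter, mem_range]; exact ⟨by omega, hp⟩
      · rw [mem_filter, mem_Icc]; exact ⟨hn.1, hpd⟩
    · right; left
      rw [mem_filter, mem_Ioc]
      exact ⟨⟨hn0, hn.1.2⟩, p, hp, hpb, hpP, hpd⟩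
    · right; right
      refine ⟨j, mem_univ _, ?_⟩
      rw [mem_filter, mem_Ioc]
      exact ⟨⟨hn0, hn.1.2⟩, p, hp, hpb, hpP, hpd⟩
  have hnn : ∀ n : ℕ, (0:ℝ) ≤ 1 / (n : ℝ) := fun n => by positivity
  have hun : ∀ A B : Finset ℕ, ∑ n ∈ A ∪ B, 1 / (n : ℝ) ≤
      ∑ n ∈ A, 1 / (n : ℝ) + ∑ n ∈ B, 1 / (n : ℝ) := by
    intro A B
    have := sum_union_inter (s₁ := A) (s₂ := B) (f := fun n : ℕ => 1 / (n : ℝ))
    have h0 : (0:ℝ) ≤ ∑ n ∈ A ∩ B, 1 / (n : ℝ) := sum_nonneg fun n _ => hnn n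
    linarith
  refine (sum_le_sum_of_subset_of_nonneg h1 (fun n _ _ => hnn n)).trans ?_
  refine (hun _ _).trans ?_
  have h2 := harm_le N0
  have h3 : ∑ n ∈ ((range (b i + 1)).filter Nat.Prime).biUnion
      (fun p => (Icc 1 N).filter (fun n => p ^ e ∣ n)), 1 / (n : ℝ) ≤
      1 / ((i : ℝ) + 1) * (1 + Real.log (2 * N)) := by
    refine (sum_biUnion_le _ _ _ hnn).trans ?_
    refine (harm_pow N (b i) e hN1).trans ?_
    have h7 : (b i : ℝ) / 2 ^ e ≤ 1 / ((i : ℝ) + 1) := by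
      rw [div_le_div_iff₀ (by positivity) (by positivity)]
      have : ((i : ℝ) + 1) * b i ≤ 2 ^ e := by exact_mod_cast he
      linarith
    have h8 : Real.log (N : ℝ) ≤ Real.log (2 * N) := by
      have : (1:ℝ) ≤ N := by exact_mod_cast hN1
      apply Real.log_le_log (by linarith)
      linarith
    have h9 : 0 ≤ Real.log (N : ℝ) := Real.log_nonneg (by exact_mod_cast hN1)
    exact mul_le_mul h7 (by linarith) (by linarith) (by positivity)
  have h4 := shift_harm hB i N N0 0 hN (Nat.zero_le _) hN1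
  have h6 : ∑ n ∈ (univ : Finset (Fin k)).biUnion (fun j => (Ioc N0 N).filter (fun n => ∃ p : ℕ,
      p.Prime ∧ b i < p ∧ p ∈ PS z b ∧ p ∣ n + h j)), 1 / (n : ℝ) ≤
      k * (4 / ((i : ℝ) + 2) * (1 + Real.log (2 * N))) := by
    refine (sum_biUnion_le _ _ _ hnn).trans ?_
    refine (sum_le_sum (fun j _ => shift_harm hB i N N0 (h j) hN (hh j) hN1)).trans ?_
    rw [sum_const, card_univ, Fintype.card_fin, nsmul_eq_mul]
  have h8 : 4 / ((i : ℝ) + 2) * (1 + Real.log (2 * N)) ≤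
      4 / ((i : ℝ) + 1) * (1 + Real.log (2 * N)) := by
    apply mul_le_mul_of_nonneg_right _ (by positivity)
    apply div_le_div_of_nonneg_left (by positivity) (by positivity)
    linarith
  have h9 : (k : ℝ) * (4 / ((i : ℝ) + 2) * (1 + Real.log (2 * N))) ≤
      k * (4 / ((i : ℝ) + 1) * (1 + Real.log (2 * N))) :=
    mul_le_mul_of_nonneg_left h8 (by positivity)
  have h10 : (4 * (k : ℝ) + 5) / ((i : ℝ) + 1) * (1 + Real.log (2 * N)) =
      1 / ((i : ℝ) + 1) * (1 + Real.log (2 * N)) +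
      (4 / ((i : ℝ) + 1) * (1 + Real.log (2 * N)) +
      k * (4 / ((i : ℝ) + 1) * (1 + Real.log (2 * N)))) := by ring
  rw [h10]
  refine add_le_add h2 ((hun _ _).trans (add_le_add h3 ((hun _ _).trans (add_le_add ?_ ?_))))
  · exact h4.trans h8
  · exact h6.trans h9

end

end Pool.Agent.V8H33.NU
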