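import Pool.Agent.V8H33.NU.Seq
import Pool.Agent.V8H33.NU.G
import Pool.Agent.V8H33.SR.Seq
import Pool.Agent.W208.TL.All
import Pool.Agent.R512.G.Expo

/-!
# Condition (N), and the correlations at fixed shifts
-/

set_option autoImplicit false

namespace Pool.Agent.V8H33.NU

open Finset Filter
open Pool.Agent.V8H33.SR (D2 term_re_le)

section

variable {Z : ℕ → ℕ → ℕ} {z b : ℕ → ℕ}

/-- the number of the block of `X` -/
noncomputable def idx (z : ℕ → ℕ) (X : ℕ) : ℕ := sInf {i | X < z (i + 2)}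

theorem idx_lt (hB : Blocks Z z b) (X : ℕ) : X < z (idx z X + 2) := by
  have h : (sInf {i | X < z (i + 2)}) ∈ {i | X < z (i + 2)} := by
    apply Nat.sInf_mem
    refine ⟨X, ?_⟩
    have := hB.two (X + 2)
    show X < z (X + 2)
    omega
  exact h

theorem idx_ge (hB : Blocks Z z b) (X i : ℕ) (h : z (i + 1) ≤ X) : i ≤ idx z X := by
  have h1 := lt_of_le_of_lt h (idx_lt hB X)
  have := hB.zmono.lt_iff_lt.1 h1
  omega

theorem idx_le (X : ℕ) (h : z 1 ≤ X) : z (idx z X + 1) ≤ X := by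
  rcases Nat.eq_zero_or_pos (idx z X) with h0 | h0
  · rw [h0]; exact h
  · have h1 : (idx z X - 1) ∉ {i | X < z (i + 2)} := Nat.notMem_of_lt_sInf (by
      show idx z X - 1 < idx z X
      omega)
    have h2 : ¬ X < z (idx z X - 1 + 2) := h1
    have h3 : idx z X - 1 + 2 = idx z X + 1 := by omega
    rw [h3] at h2
    omega

open Classical in
theorem sparse (hB : Blocks Z z b) (hZ : ∀ i x, x ^ (i + 1) ≤ Z i x) (K m X : ℕ)
    (hX : z (max K m + 1) ≤ X) :
    ∑ p ∈ (Icc 1 X).filter (fun p => p.Prime ∧ X < p ^ K ∧ p ∈ PS z b), 1 / (p : ℝ) ≤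
      1 / ((m : ℝ) + 2) := by
  have h0 := idx_ge hB X _ hX
  have hz1 : z 1 ≤ X := (hB.zmono.monotone (by omega)).trans hX
  have h1 := idx_le X hz1
  have h2 := idx_lt hB X
  have h3 := hB.sum_one (idx z X)
    ((Icc 1 X).filter (fun p => p.Prime ∧ X < p ^ K ∧ p ∈ PS z b)) (by
      intro p hp
      rw [mem_filter, mem_Icc] at hp
      refine ⟨hp.2.2.2, ?_, by omega⟩
      by_contra hcon
      push Not at hcon
      have e1 : p ^ K ≤ b (idx z X) ^ (idx z X + 1) :=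
        (Nat.pow_le_pow_left hcon K).trans (Nat.pow_le_pow_right
          (lt_of_lt_of_le hp.2.1.pos hcon) (by have := le_max_left K m; omega))
      have e2 := (hZ (idx z X) (b (idx z X))).trans (hB.next (idx z X))
      omega)
  refine h3.trans ?_
  apply one_div_le_one_div_of_le (by positivity)
  have : (m : ℝ) ≤ idx z X := by exact_mod_cast (le_max_right K m).trans h0
  linarith

/-- the complex valued version -/
noncomputable def gC (z b : ℕ → ℕ) (n : ℕ) : ℂ := ((gP (PS z b) n : ℤ) : ℂ)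

theorem gC_norm (z b : ℕ → ℕ) (n : ℕ) : ‖gC z b n‖ ≤ 1 := by
  unfold gC
  rcases Nat.eq_zero_or_pos n with h0 | h0
  · rw [h0, map_zero]; simp
  · rcases gP_val (PS z b) (by omega : n ≠ 0) with h' | h' <;> rw [h'] <;> simp

theorem term_re (g : ℕ → ℂ) (q : ℕ) (χ : DirichletCharacter ℂ q) (t : ℝ) (p : ℕ) (hp : p.Prime)
    (hq : p % q = 1 % q) (s : ℝ) (hs : g p = s) :
    (g p * starRingEnd ℂ (χ (p : ZMod q) * (p : ℂ) ^ (Complex.I * (t : ℂ)))).re =
      s * Real.cos (t * Real.log p) := by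
  have h1 : ((p : ℕ) : ZMod q) = 1 := by
    have := (ZMod.natCast_eq_natCast_iff' p 1 q).2 hq
    simpa using this
  have hp0 : p ≠ 0 := hp.ne_zero
  rw [h1, map_one, one_mul, Complex.cpow_def_of_ne_zero (by exact_mod_cast hp0), hs,
    Complex.re_ofReal_mul, ← Complex.natCast_log]
  congr 1
  rw [Complex.conj_re]
  have h2 : ((Real.log p : ℝ) : ℂ) * (Complex.I * (t : ℂ)) =
      ((t * Real.log p : ℝ) : ℂ) * Complex.I := by
    push_cast; ring
  rw [h2, Complex.exp_ofReal_mul_I_re]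

theorem gC_mem {p : ℕ} (hp : p.Prime) (h : p ∈ PS z b) : gC z b p = ((-1 : ℝ) : ℂ) := by
  unfold gC
  rw [gP_prime _ hp, sgn, if_pos h]
  push_cast; rfl

theorem gC_not_mem {p : ℕ} (hp : p.Prime) (h : p ∉ PS z b) : gC z b p = ((1 : ℝ) : ℂ) := by
  unfold gC
  rw [gP_prime _ hp, sgn, if_neg h]
  push_cast; rfl

theorem D2_sub (g : ℕ → ℂ) (hg : ∀ n, ‖g n‖ ≤ 1) (q : ℕ) (χ : DirichletCharacter ℂ q) (t X : ℝ)
    (S : Finset ℕ) (hS : ∀ p ∈ S, p.Prime ∧ p ≤ ⌊X⌋₊) :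
    ∑ p ∈ S, (1 - (g p * starRingEnd ℂ (χ (p : ZMod q) * (p : ℂ) ^ (Complex.I * (t : ℂ)))).re) /
      (p : ℝ) ≤ D2 g q χ t X := by
  unfold D2
  apply sum_le_sum_of_subset_of_nonneg
  · intro p hp
    rw [mem_filter, mem_Iic]
    exact ⟨(hS p hp).2, (hS p hp).1⟩
  · intro p hp _
    have hp0 : p ≠ 0 := (mem_filter.1 hp).2.ne_zero
    have := (abs_le.1 (term_re_le g hg q χ t p hp0)).2
    have hp1 : (0:ℝ) ≤ p := by positivity
    exact div_nonneg (by linarith) hp1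

theorem condN (hB : Blocks Z z b) (hZ : ∀ i x, x ^ (i + 1) ≤ Z i x) (q : ℕ) (hq : 0 < q)
    (χ : DirichletCharacter ℂ q) (B : ℝ) : ∃ X₀ : ℝ, ∀ X : ℝ, X₀ ≤ X → ∀ t : ℝ, |t| ≤ X →
      B ≤ D2 (gC z b) q χ t X := by
  classical
  obtain ⟨S, hS, hSB⟩ := hB.div q hq B
  set Z0 : ℕ := S.sup id with hZ0
  have hSZ : ∀ p ∈ S, p ≤ Z0 := fun p hp => le_sup (f := id) hp
  have hlZ : 0 ≤ Real.log ((Z0 : ℝ) + 1) := Real.log_nonneg (by linarith [Nat.cast_nonneg (α := ℝ) Z0])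
  set δ : ℝ := 1 / (1 + Real.log ((Z0 : ℝ) + 1)) with hδ
  have hδ0 : 0 < δ := by positivity
  obtain ⟨κ, hκ, C, hkl⟩ := kl2 q hq δ hδ0
  obtain ⟨M, hM1, hM⟩ : ∃ M : ℕ, 1 ≤ M ∧ B + 2 ≤ κ * Real.log M - C := by
    have h1 : Tendsto (fun M : ℕ => κ * Real.log M - C) atTop atTop := by
      apply tendsto_atTop_add_const_right
      exact (Real.tendsto_log_atTop.comp tendsto_natCast_atTop_atTop).const_mul_atTop hκ
    obtain ⟨M, hM⟩ := ((h1.eventually_ge_atTop (B + 2)).and (eventually_ge_atTop 1)).exists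
    exact ⟨M, hM.2, hM.1⟩
  obtain ⟨X₁, hX₁⟩ := hkl M hM1
  refine ⟨max (max X₁ Z0) ((z (max M 0 + 1) : ℕ) : ℝ), fun X hX t ht => ?_⟩
  have hXa : X₁ ≤ X := ((le_max_left _ _).trans (le_max_left _ _)).trans hX
  have hXb : (Z0 : ℝ) ≤ X := ((le_max_right _ _).trans (le_max_left _ _)).trans hX
  have hXc : ((z (max M 0 + 1) : ℕ) : ℝ) ≤ X := (le_max_right _ _).trans hX
  have hX0 : 0 ≤ X := le_trans (by positivity) hXb
  rcases lt_or_ge |t| δ with htδ | htδ
  · -- small `t`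
    refine le_trans ?_ (D2_sub (gC z b) (gC_norm z b) q χ t X S (fun p hp =>
      ⟨(hS p hp).2.1, Nat.le_floor (le_trans (by exact_mod_cast hSZ p hp) hXb)⟩))
    refine hSB.trans (sum_le_sum fun p hp => ?_)
    obtain ⟨hpP, hpp, hpq⟩ := hS p hp
    rw [term_re (gC z b) q χ t p hpp hpq (-1) (gC_mem hpp hpP)]
    apply div_le_div_of_nonneg_right _ (by positivity)
    have h1 : |t * Real.log p| ≤ 1 := by
      have hp1 : (1:ℝ) ≤ p := by exact_mod_cast hpp.one_lt.le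
      rw [abs_mul, abs_of_nonneg (Real.log_nonneg hp1)]
      have h2 : Real.log p ≤ Real.log ((Z0 : ℝ) + 1) := by
        apply Real.log_le_log (by linarith)
        have : (p : ℝ) ≤ Z0 := by exact_mod_cast hSZ p hp
        linarith
      have h3 : |t| * Real.log p ≤ δ * (1 + Real.log ((Z0 : ℝ) + 1)) := by
        apply mul_le_mul htδ.le (by linarith) (Real.log_nonneg hp1) hδ0.le
      rw [hδ, one_div, inv_mul_cancel₀ (by positivity)] at h3
      exact h3
    have := Real.cos_pos_of_le_one h1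
    linarith
  · -- large `t`
    have h1 := hX₁ X hXa t htδ ht
    have hsp := sparse hB hZ M 0 ⌊X⌋₊ (Nat.le_floor hXc)
    have h2 : ∑ p ∈ (Finset.Iic ⌊X⌋₊).filter (fun p : ℕ => p.Prime ∧ p % q = 1 % q ∧
        X ^ (1 / (M : ℝ)) < p), ((1 - Real.cos (t * Real.log p)) / (p : ℝ) -
          2 * (if p ∈ PS z b then 1 / (p : ℝ) else 0)) ≤ D2 (gC z b) q χ t X := by
      refine le_trans ?_ (D2_sub (gC z b) (gC_norm z b) q χ t X
        ((Finset.Iic ⌊X⌋₊).filter (fun p : ℕ => p.Prime ∧ p % q = 1 % q ∧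
        X ^ (1 / (M : ℝ)) < p)) (fun p hp => by
          rw [mem_filter, mem_Iic] at hp
          exact ⟨hp.2.1, hp.1⟩))
      apply sum_le_sum
      intro p hp
      rw [mem_filter, mem_Iic] at hp
      by_cases hP : p ∈ PS z b
      · rw [if_pos hP, term_re (gC z b) q χ t p hp.2.1 hp.2.2.1 (-1) (gC_mem hp.2.1 hP),
          mul_one_div, ← sub_div]
        apply div_le_div_of_nonneg_right _ (by positivity)
        linarith [Real.neg_one_le_cos (t * Real.log p)]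
      · rw [if_neg hP, term_re (gC z b) q χ t p hp.2.1 hp.2.2.1 1 (gC_not_mem hp.2.1 hP)]
        apply le_of_eq
        ring
    rw [sum_sub_distrib, ← mul_sum] at h2
    have h3 : ∑ p ∈ (Finset.Iic ⌊X⌋₊).filter (fun p : ℕ => p.Prime ∧ p % q = 1 % q ∧
        X ^ (1 / (M : ℝ)) < p), (if p ∈ PS z b then 1 / (p : ℝ) else 0) ≤ 1 := by
      rw [← sum_filter]
      refine le_trans ?_ (hsp.trans (by norm_num))
      apply sum_le_sum_of_subset_of_nonneg
      · intro p hp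
        rw [mem_filter, mem_filter, mem_Iic] at hp
        obtain ⟨⟨hp1, hp2, _, hp4⟩, hp5⟩ := hp
        rw [mem_filter, mem_Icc]
        refine ⟨⟨hp2.pos, hp1⟩, hp2, ?_, hp5⟩
        have e1 : X < (p : ℝ) ^ M := by
          have e2 : X = (X ^ (1 / (M : ℝ))) ^ M := by
            rw [one_div]
            exact (Real.rpow_inv_natCast_pow hX0 (by omega)).symm
          rw [e2]
          exact pow_lt_pow_left₀ hp4 (by positivity) (by omega)
        have e3 : (⌊X⌋₊ : ℝ) < (p : ℝ) ^ M := lt_of_le_of_lt (Nat.floor_le hX0) e1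
        exact_mod_cast e3
      · intro p _ _
        positivity
    have h4 : κ * Real.log M - C ≤ ∑ p ∈ (Finset.Iic ⌊X⌋₊).filter (fun p : ℕ => p.Prime ∧
        p % q = 1 % q ∧ X ^ (1 / (M : ℝ)) < p), (1 - Real.cos (t * Real.log p)) / (p : ℝ) := h1
    linarith

theorem cm_gP (P : Set ℕ) : Pool.Agent.Y872.L.CM (fun n => gP P n) where
  zero := map_zero _
  one := map_one _
  mul := fun m n => map_mul _ m n
  val := fun n hn => gP_val P (by omega)

theorem nonPret_gP (hB : Blocks Z z b) : Pool.Agent.Y872.L.NonPret (fun n => gP (PS z b) n) := by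
  classical
  intro Q hQ χ _ hsum
  unfold Pool.Agent.Y872.L.Pr at hsum
  obtain ⟨S, hS, hSB⟩ := hB.div Q hQ ((∑' p : ℕ, (if p.Prime ∧ (((gP (PS z b) p : ℤ)) : ℂ) ≠
    χ (p : ZMod Q) then 1 / (p : ℝ) else 0)) + 1)
  have h1 := hsum.sum_le_tsum S (fun p _ => by
    show (0:ℝ) ≤ if _ then _ else _
    split_ifs <;> positivity)
  have h2 : ∑ p ∈ S, (if p.Prime ∧ (((gP (PS z b) p : ℤ)) : ℂ) ≠ χ (p : ZMod Q) then
      1 / (p : ℝ) else 0) = ∑ p ∈ S, 1 / (p : ℝ) := by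
    apply sum_congr rfl
    intro p hp
    obtain ⟨hpP, hpp, hpq⟩ := hS p hp
    rw [if_pos]
    refine ⟨hpp, ?_⟩
    have e1 : ((p : ℕ) : ZMod Q) = 1 := by
      have := (ZMod.natCast_eq_natCast_iff' p 1 Q).2 hpq
      simpa using this
    rw [e1, map_one, gP_prime _ hpp, sgn, if_pos hpP]
    norm_num
  rw [h2] at h1
  linarith

theorem mul1_gC (z b : ℕ → ℕ) : Pool.Agent.W208.TL.Mul1 (gC z b) := by
  refine ⟨gC_norm z b, ?_, ?_⟩
  · unfold gC; rw [map_one]; simp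
  · intro m n _
    unfold gC; rw [map_mul]; push_cast; rfl

theorem aper (hB : Blocks Z z b) : ∀ q r : ℕ, 1 ≤ q → Tendsto (fun X : ℕ =>
      (∑ n ∈ (Ioc 0 X).filter (fun n => n ≡ r [MOD q]), gC z b n) / (X : ℂ)) atTop (nhds 0) := by
  classical
  intro q r hq
  rw [Metric.tendsto_atTop]
  intro ε hε
  obtain ⟨N₀, hN₀⟩ := Pool.Agent.R512.G.cls (cm_gP (PS z b)) (nonPret_gP hB) q (r % q) hq (ε / 2)
    (by positivity)
  refine ⟨N₀ + 1, fun X hX => ?_⟩
  have h1 := hN₀ X (by omega)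
  have hX0 : (0:ℝ) < X := by
    have : 0 < X := by omega
    exact_mod_cast this
  rw [dist_zero_right, norm_div, Complex.norm_natCast, div_lt_iff₀ hX0]
  have h2 : ∑ n ∈ (Ioc 0 X).filter (fun n => n ≡ r [MOD q]), gC z b n =
      ((∑ n ∈ Icc 1 X, ((Pool.Agent.TH823.MRS.rs (fun n => gP (PS z b) n) q (r % q) n : ℤ) : ℝ) : ℝ) :
        ℂ) := by
    have hI : Icc 1 X = Ioc 0 X := by
      ext x; rw [mem_Icc, mem_Ioc]; omega
    rw [hI, Complex.ofReal_sum, sum_filter]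
    apply sum_congr rfl
    intro n _
    unfold Pool.Agent.TH823.MRS.rs gC
    have : n ≡ r [MOD q] ↔ n % q = r % q := Iff.rfl
    by_cases h : n % q = r % q
    · rw [if_pos (this.2 h), if_pos h]; push_cast; rfl
    · rw [if_neg (fun hh => h (this.1 hh)), if_neg h]; simp
  rw [h2, Complex.norm_real, Real.norm_eq_abs]
  nlinarith

theorem tame (hB : Blocks Z z b) (hZ : ∀ i x, x ^ (i + 1) ≤ Z i x) :
    Pool.Agent.W208.TL.Tame (gC z b) := by
  classical
  intro K _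
  rw [Metric.tendsto_atTop]
  intro ε hε
  obtain ⟨m, hm⟩ := exists_nat_gt (2 / ε)
  refine ⟨z (max K m + 1), fun X hX => ?_⟩
  have h1 := sparse hB hZ K m X hX
  have h2 : ∑ p ∈ (Icc 1 X).filter (fun p => p.Prime ∧ X < p ^ K), (1 - (gC z b p).re) / (p : ℝ) =
      2 * ∑ p ∈ (Icc 1 X).filter (fun p => p.Prime ∧ X < p ^ K ∧ p ∈ PS z b), 1 / (p : ℝ) := by
    have h3 : (Icc 1 X).filter (fun p => p.Prime ∧ X < p ^ K ∧ p ∈ PS z b) =
        ((Icc 1 X).filter (fun p => p.Prime ∧ X < p ^ K)).filter (fun p => p ∈ PS z b) := by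
      rw [filter_filter]
      apply filter_congr
      intro p _
      tauto
    rw [h3, mul_sum, sum_filter (p := fun p => p ∈ PS z b)]
    apply sum_congr rfl
    intro p hp
    rw [mem_filter] at hp
    by_cases hP : p ∈ PS z b
    · rw [if_pos hP, gC_mem hp.2.1 hP, Complex.ofReal_re]
      ring
    · rw [if_neg hP, gC_not_mem hp.2.1 hP, Complex.ofReal_re]
      ring
  rw [h2, Real.dist_eq, sub_zero]
  have h0 : 0 ≤ ∑ p ∈ (Icc 1 X).filter (fun p => p.Prime ∧ X < p ^ K ∧ p ∈ PS z b), 1 / (p : ℝ) :=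
    sum_nonneg fun p _ => by positivity
  rw [abs_of_nonneg (by positivity)]
  have h4 : 2 * (1 / ((m : ℝ) + 2)) < ε := by
    rw [mul_one_div, div_lt_iff₀ (by positivity)]
    rw [div_lt_iff₀ hε] at hm
    linarith
  linarith

theorem elliott (hB : Blocks Z z b) (hZ : ∀ i x, x ^ (i + 1) ≤ Z i x) (k : ℕ) (hk : 0 < k)
    (h : Fin k → ℕ) (hinj : Function.Injective h) :
    Tendsto (fun X : ℕ => (∑ n ∈ Icc 1 X, ∏ i, ((gP (PS z b) (n + h i) : ℤ) : ℝ)) / (X : ℝ)) atTop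
      (nhds 0) := by
  obtain ⟨k, rfl⟩ : ∃ k', k = k' + 1 := ⟨k - 1, by omega⟩
  have h1 := Pool.Agent.W208.TL.ELL_all k (h 0) (fun j => h j.succ)
    (fun i j hij => Fin.succ_injective _ (hinj hij))
    (fun j hj => (Fin.succ_ne_zero j) (hinj hj))
    (gC z b) (mul1_gC z b) (aper hB) (fun _ => 1) (fun _ => 1) (fun _ => 0) (fun _ => gC z b)
    (fun _ => le_rfl) (fun _ => mul1_gC z b) (fun _ => tame hB hZ)
  have h2 : (fun X : ℕ => (∑ n ∈ Ioc 0 X, gC z b (n + h 0) * ∏ j : Fin k,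
      ((1 : DirichletCharacter ℂ 1) ((n + h j.succ : ℕ) : ZMod 1) *
      Pool.Agent.W208.TL.nit 0 (n + h j.succ) * gC z b (n + h j.succ))) / (X : ℂ)) =
      (fun X : ℕ => (((∑ n ∈ Icc 1 X, ∏ i, ((gP (PS z b) (n + h i) : ℤ) : ℝ)) / (X : ℝ) : ℝ) : ℂ)) := by
    funext X
    have hI : Icc 1 X = Ioc 0 X := by
      ext x; rw [mem_Icc, mem_Ioc]; omega
    rw [hI, Complex.ofReal_div, Complex.ofReal_sum, Complex.ofReal_natCast]
    congr 1
    apply sum_congr rfl
    intro n _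
    rw [Fin.prod_univ_succ]
    push_cast
    congr 1
    apply prod_congr rfl
    intro j _
    have e1 : (1 : DirichletCharacter ℂ 1) (((n : ZMod 1) + (h j.succ : ZMod 1))) = 1 := by
      rw [Subsingleton.elim ((n : ZMod 1) + (h j.succ : ZMod 1)) 1, map_one]
    rw [e1]
    unfold Pool.Agent.W208.TL.nit gC
    simp
  rw [h2] at h1
  have h3 := (Complex.continuous_re.tendsto 0).comp h1
  simpa only [Function.comp_def, Complex.ofReal_re, Complex.zero_re] using h3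

end

end Pool.Agent.V8H33.NU
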