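import Pool.Agent.V8H33.NU.Cnt
import Pool.Agent.V8H33.NU.Np

/-!
# The shifts
-/

set_option autoImplicit false

namespace Pool.Agent.V8H33.NU

open Finset Filter

/-- the shift belonging to the block `i` with the largest prime at most `x` -/
def Lf (i x : ℕ) : ℕ := (x.factorial) ^ ((i + 1) * x)

theorem Lf_pos (i x : ℕ) : 1 ≤ Lf i x := Nat.one_le_pow _ _ (Nat.factorial_pos _)

/-- the shift at the scale `X` -/
noncomputable def sh (z b : ℕ → ℕ) (X : ℕ) : ℕ := Lf (idx z X) (b (idx z X))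

/-- the natural average of the correlation -/
noncomputable def av (g : ℕ → ℤ) {k : ℕ} (h : Fin k → ℕ) (X : ℕ) : ℝ :=
  (∑ n ∈ Icc 1 X, ∏ i, ((g (n + h i) : ℤ) : ℝ)) / (X : ℝ)

/-- the logarithmic average of the correlation -/
noncomputable def lav (g : ℕ → ℤ) {k : ℕ} (h : Fin k → ℕ) (X : ℕ) : ℝ :=
  (∑ n ∈ Icc 1 X, (∏ i, ((g (n + h i) : ℤ) : ℝ)) / (n : ℝ)) / ∑ n ∈ Icc 1 X, 1 / (n : ℝ)

section

variable {Z : ℕ → ℕ → ℕ} {z b : ℕ → ℕ}

theorem two_mul_z (hB : Blocks Z z b) (hZ : ∀ i x, x ^ (i + 1) ≤ Z i x) (i : ℕ) :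
    2 * z (i + 2) ≤ z (i + 3) := by
  have h1 := hZ (i + 2) (b (i + 2))
  have h2 := hB.next (i + 2)
  have h3 := hB.lt (i + 2)
  have h4 := hB.two (i + 2)
  have h5 : b (i + 2) ^ 2 ≤ b (i + 2) ^ (i + 2 + 1) :=
    Nat.pow_le_pow_right (by omega) (by omega)
  have h6 : z (i + 2 + 1) = z (i + 3) := rfl
  nlinarith

theorem card_exc_sum (P : Set ℕ) (b e : ℕ) {k : ℕ} (hk : Even k) (h : Fin k → ℕ)
    (hh : ∀ i, (b.factorial) ^ e ∣ h i) (X : ℕ) (w : ℕ → ℝ) (hw : ∀ n, 0 ≤ w n) (S : Finset ℕ)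
    (hS : ∀ n ∈ Icc 1 X, Exc P b e h n → n ∈ S) :
    |∑ n ∈ Icc 1 X, (∏ i, ((gP P (n + h i) : ℤ) : ℝ)) * w n - ∑ n ∈ Icc 1 X, w n| ≤
      2 * ∑ n ∈ S, w n := by
  classical
  rw [← sum_sub_distrib]
  refine (abs_sum_le_sum_abs _ _).trans ?_
  have h1 : ∀ n ∈ Icc 1 X, |(∏ i, ((gP P (n + h i) : ℤ) : ℝ)) * w n - w n| ≤
      if n ∈ S then 2 * w n else 0 := by
    intro n hn
    have hn' := mem_Icc.1 hn
    by_cases hE : Exc P b e h n
    · rw [if_pos (hS n hn hE)]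
      have e1 := prod_bound P h n
      have e2 : (∏ i, ((gP P (n + h i) : ℤ) : ℝ)) * w n - w n =
          (∏ i, ((gP P (n + h i) : ℤ) : ℝ) - 1) * w n := by ring
      rw [e2, abs_mul, abs_of_nonneg (hw n)]
      apply mul_le_mul_of_nonneg_right _ (hw n)
      refine (abs_sub _ _).trans ?_
      rw [abs_one]
      linarith
    · rw [prod_eq_one P b e hk h hh (by omega) hE]
      rw [one_mul, sub_self, abs_zero]
      split_ifs
      · have := hw n; positivity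
      · exact le_rfl
  refine (sum_le_sum h1).trans ?_
  rw [← sum_filter, mul_sum]
  apply sum_le_sum_of_subset_of_nonneg
  · intro n hn
    exact (mem_filter.1 hn).2
  · intro n _ _
    have := hw n
    positivity

theorem av_close (hB : Blocks Z z b) (hZ : ∀ i x, x ^ (i + 1) ≤ Z i x) {k : ℕ} (hk : Even k)
    (X : ℕ) (hX : 1 ≤ X) (h : Fin k → ℕ) (hh : ∀ i, sh z b X ∣ h i ∧ h i ≤ X) :
    |av (gP (PS z b)) h X - 1| ≤ 2 * (6 * k + 7) / ((idx z X : ℝ) + 1) := by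
  classical
  have hX0 : (0:ℝ) < X := by exact_mod_cast hX
  set i := idx z X with hi
  have h1 := idx_lt hB X
  rw [← hi] at h1
  have h2 := two_mul_z hB hZ i
  have h3 := exc_card hB i ((i + 1) * b i) Nat.lt_two_pow_self.le k h X (by omega)
    (fun j => (hh j).2)
  have h4 := card_exc_sum (PS z b) (b i) ((i + 1) * b i) hk h (fun j => (hh j).1) X
    (fun _ => 1) (fun _ => by norm_num)
    ((Icc 1 X).filter (fun n => Exc (PS z b) (b i) ((i + 1) * b i) h n))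
    (fun n hn hE => mem_filter.2 ⟨hn, hE⟩)
  simp only [mul_one, sum_const, nsmul_eq_mul, Nat.card_Icc, Nat.add_sub_cancel] at h4
  have h5 : av (gP (PS z b)) h X - 1 =
      (∑ n ∈ Icc 1 X, ∏ i, ((gP (PS z b) (n + h i) : ℤ) : ℝ) - X) / X := by
    unfold av
    rw [sub_div, div_self hX0.ne']
  rw [h5, abs_div, abs_of_pos hX0, div_le_iff₀ hX0]
  refine h4.trans ?_
  have h6 : 2 * (6 * (k : ℝ) + 7) / ((i : ℝ) + 1) * X = 2 * ((6 * k + 7) * X / ((i : ℝ) + 1)) := by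
    ring
  rw [h6]
  exact mul_le_mul_of_nonneg_left h3 (by norm_num)

theorem lav_close (hB : Blocks Z z b) (hZ : ∀ i x, x ^ (i + 1) ≤ Z i x)
    (hZ' : ∀ i x, Lf i x ^ (i + 1) ≤ Z i x) {k : ℕ} (hk : Even k) (j : Fin k → ℕ)
    (X : ℕ) (hX : z 1 ≤ X) :
    |lav (gP (PS z b)) (fun i => j i * sh z b X) X - 1| ≤
      2 * ((1 + Real.log (∑ i, j i + 1 : ℕ) + 2 * (4 * k + 5)) / Real.log X +
        (4 * k + 6) / ((idx z X : ℝ) + 1)) := by
  classical
  have hz1 := hB.two 1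
  have hX4 : 4 ≤ X := by omega
  have hX4' : (4:ℝ) ≤ X := by exact_mod_cast hX4
  have hX0 : (0:ℝ) < X := by linarith
  have hlX : 0 < Real.log X := Real.log_pos (by linarith)
  set i := idx z X with hi
  have h1 := idx_lt hB X
  have h1' := idx_le X hX
  rw [← hi] at h1 h1'
  have h2 := two_mul_z hB hZ i
  set J : ℕ := ∑ i, j i + 1 with hJ
  have hjJ : ∀ l, j l ≤ J := by
    intro l
    have : j l ≤ ∑ i, j i := single_le_sum (fun i _ => Nat.zero_le _) (mem_univ l)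
    omega
  have hJ1 : 1 ≤ J := by omega
  have h3 := exc_harm hB i ((i + 1) * b i) Nat.lt_two_pow_self.le k
    (fun l => j l * sh z b X) X (J * sh z b X) (by omega)
    (fun l => Nat.mul_le_mul_right _ (hjJ l)) (by omega)
  have h4 := card_exc_sum (PS z b) (b i) ((i + 1) * b i) hk (fun l => j l * sh z b X)
    (fun l => Dvd.intro_left _ rfl) X
    (fun n => 1 / (n : ℝ)) (fun _ => by positivity)
    ((Icc 1 X).filter (fun n => Exc (PS z b) (b i) ((i + 1) * b i) (fun l => j l * sh z b X) n))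
    (fun n hn hE => mem_filter.2 ⟨hn, hE⟩)
  have hharm : Real.log X ≤ ∑ n ∈ Icc 1 X, 1 / (n : ℝ) := by
    have e1 := log_add_one_le_harmonic X
    rw [harmonic_eq_sum_Icc] at e1
    push_cast at e1
    have e2 : Real.log X ≤ Real.log (X + 1) := Real.log_le_log hX0 (by linarith)
    simpa [one_div] using e2.trans e1
  have hharm0 : 0 < ∑ n ∈ Icc 1 X, 1 / (n : ℝ) := lt_of_lt_of_le hlX hharm
  have hs : Real.log (sh z b X) ≤ Real.log X / ((i : ℝ) + 1) := by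
    rw [le_div_iff₀ (by positivity)]
    have e1 : sh z b X ^ (i + 1) ≤ X := (hZ' i (b i)).trans ((hB.next i).trans h1')
    have e2 : (0:ℝ) < sh z b X := by exact_mod_cast Lf_pos _ _
    have e3 : Real.log ((sh z b X : ℝ) ^ (i + 1)) ≤ Real.log X := by
      apply Real.log_le_log (by positivity)
      exact_mod_cast e1
    rw [Real.log_pow] at e3
    push_cast at e3
    linarith
  have hlog2 : Real.log (2 * (X : ℝ)) ≤ 1 + Real.log X := by
    rw [Real.log_mul (by norm_num) hX0.ne']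
    linarith [Real.log_two_lt_d9]
  have hlJs : Real.log ((J * sh z b X : ℕ) : ℝ) = Real.log J + Real.log (sh z b X) := by
    push_cast
    apply Real.log_mul
    · have : (0:ℝ) < J := by exact_mod_cast hJ1
      exact this.ne'
    · have : (0:ℝ) < sh z b X := by exact_mod_cast Lf_pos _ _
      exact this.ne'
  have hlJ : 0 ≤ Real.log (J : ℝ) := Real.log_nonneg (by exact_mod_cast hJ1)
  have h5 : lav (gP (PS z b)) (fun l => j l * sh z b X) X - 1 =
      (∑ n ∈ Icc 1 X, (∏ l, ((gP (PS z b) (n + j l * sh z b X) : ℤ) : ℝ)) * (1 / (n : ℝ)) -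
        ∑ n ∈ Icc 1 X, 1 / (n : ℝ)) / ∑ n ∈ Icc 1 X, 1 / (n : ℝ) := by
    unfold lav
    rw [sub_div, div_self hharm0.ne']
    congr 3
    funext n
    rw [mul_one_div]
  rw [h5, abs_div, abs_of_pos hharm0, div_le_iff₀ hharm0]
  refine h4.trans ?_
  rw [mul_assoc]
  refine mul_le_mul_of_nonneg_left ?_ (by norm_num)
  refine h3.trans ?_
  rw [hlJs]
  have hi1 : (0:ℝ) < (i : ℝ) + 1 := by positivity
  have h6 : (1 + (Real.log J + Real.log (sh z b X))) +
      (4 * k + 5) / ((i : ℝ) + 1) * (1 + Real.log (2 * X)) ≤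
      ((1 + Real.log J + 2 * (4 * k + 5)) / Real.log X + (4 * k + 6) / ((i : ℝ) + 1)) *
        Real.log X := by
    rw [add_mul, div_mul_cancel₀ _ hlX.ne']
    have e1 : (4 * (k : ℝ) + 5) / ((i : ℝ) + 1) * (1 + Real.log (2 * X)) ≤
        (4 * (k : ℝ) + 5) / ((i : ℝ) + 1) * (2 + Real.log X) :=
      mul_le_mul_of_nonneg_left (by linarith) (by positivity)
    have e2 : (4 * (k : ℝ) + 5) / ((i : ℝ) + 1) * 2 ≤ 2 * (4 * k + 5) := by
      have : (4 * (k : ℝ) + 5) / ((i : ℝ) + 1) ≤ 4 * k + 5 :=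
        div_le_self (by positivity) (by linarith [Nat.cast_nonneg (α := ℝ) i])
      linarith
    have e3 : (4 * (k : ℝ) + 6) / ((i : ℝ) + 1) * Real.log X =
        (4 * (k : ℝ) + 5) / ((i : ℝ) + 1) * Real.log X + Real.log X / ((i : ℝ) + 1) := by ring
    rw [e3]
    linarith
  refine h6.trans ?_
  apply mul_le_mul_of_nonneg_left hharm
  positivity

theorem idx_large (hB : Blocks Z z b) (A : ℝ) : ∀ᶠ X : ℕ in atTop, A ≤ (idx z X : ℝ) := by
  obtain ⟨m, hm⟩ := exists_nat_ge A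
  filter_upwards [eventually_ge_atTop (z (m + 1))] with X hX
  have := idx_ge hB X m hX
  have h : (m : ℝ) ≤ idx z X := by exact_mod_cast this
  linarith

theorem av_ev (hB : Blocks Z z b) (hZ : ∀ i x, x ^ (i + 1) ≤ Z i x) {k : ℕ} (hk : Even k)
    (ε : ℝ) (hε : 0 < ε) : ∀ᶠ X : ℕ in atTop, ∀ h : Fin k → ℕ,
      (∀ i, sh z b X ∣ h i ∧ h i ≤ X) → |av (gP (PS z b)) h X - 1| ≤ ε := by
  filter_upwards [idx_large hB (2 * (6 * k + 7) / ε), eventually_ge_atTop 1] with X h1 h2 h hh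
  refine (av_close hB hZ hk X h2 h hh).trans ?_
  rw [div_le_iff₀ (by positivity)]
  rw [div_le_iff₀ hε] at h1
  nlinarith

theorem lav_tendsto (hB : Blocks Z z b) (hZ : ∀ i x, x ^ (i + 1) ≤ Z i x)
    (hZ' : ∀ i x, Lf i x ^ (i + 1) ≤ Z i x) {k : ℕ} (hk : Even k) (j : Fin k → ℕ) :
    Tendsto (fun X => lav (gP (PS z b)) (fun i => j i * sh z b X) X) atTop (nhds 1) := by
  rw [tendsto_iff_dist_tendsto_zero]
  have h1 : Tendsto (fun X : ℕ => (1 + Real.log (∑ i, j i + 1 : ℕ) + 2 * (4 * (k : ℝ) + 5)) /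
      Real.log (X : ℝ)) atTop (nhds 0) :=
    (Real.tendsto_log_atTop.comp tendsto_natCast_atTop_atTop).const_div_atTop _
  have h2 : Tendsto (fun X : ℕ => (4 * (k : ℝ) + 6) / ((idx z X : ℝ) + 1)) atTop (nhds 0) := by
    apply Tendsto.const_div_atTop
    apply tendsto_atTop_add_const_right
    rw [tendsto_atTop]
    exact fun A => idx_large hB A
  have h3 := (h1.add h2).const_mul 2
  rw [add_zero, mul_zero] at h3
  refine squeeze_zero' (Eventually.of_forall fun _ => dist_nonneg) ?_ h3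
  filter_upwards [eventually_ge_atTop (z 1)] with X hX
  rw [Real.dist_eq]
  exact lav_close hB hZ hZ' hk j X hX

theorem many (hB : Blocks Z z b) (hZ : ∀ i x, x ^ (i + 1) ≤ Z i x) (H : ℕ → ℕ)
    (hH : ∀ᶠ X : ℕ in atTop, 2 * sh z b X ≤ H X) (ε : ℝ) (hε : 0 < ε) :
    ∀ᶠ X : ℕ in atTop, ∀ Y : ℕ, H X ≤ Y → Y ≤ X →
      Y ≤ H X * ((Icc 1 Y).filter (fun h => 1 - ε ≤ av (gP (PS z b)) ![0, h] X)).card := by
  classical
  filter_upwards [av_ev hB hZ (k := 2) (by decide) ε hε, hH] with X h1 h2 Y hY1 hY2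
  set s := sh z b X with hs
  have hs1 : 1 ≤ s := Lf_pos _ _
  have h3 : Y / s ≤ ((Icc 1 Y).filter (fun h => 1 - ε ≤ av (gP (PS z b)) ![0, h] X)).card := by
    have h4 : ((Icc 1 (Y / s)).image (fun m => s * m)) ⊆
        (Icc 1 Y).filter (fun h => 1 - ε ≤ av (gP (PS z b)) ![0, h] X) := by
      intro h hh
      rw [mem_image] at hh
      obtain ⟨m, hm, rfl⟩ := hh
      rw [mem_Icc] at hm
      have e1 : s * m ≤ Y := by
        calc s * m ≤ s * (Y / s) := Nat.mul_le_mul_left _ hm.2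
          _ ≤ Y := Nat.mul_div_le _ _
      rw [mem_filter, mem_Icc]
      refine ⟨⟨Nat.mul_pos hs1 hm.1, e1⟩, ?_⟩
      have e2 := h1 ![0, s * m] (by
        intro i
        fin_cases i
        · exact ⟨dvd_zero _, Nat.zero_le _⟩
        · exact ⟨Dvd.intro _ rfl, e1.trans hY2⟩)
      have := (abs_le.1 e2).1
      linarith
    have h5 := card_le_card h4
    rwa [card_image_of_injective _ (fun a b hab => Nat.eq_of_mul_eq_mul_left hs1 hab),
      Nat.card_Icc, Nat.add_sub_cancel] at h5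
  have h6 : Y < s * (Y / s) + s := Nat.lt_mul_div_succ Y hs1 |>.trans_eq (by ring)
  have h7 : 1 ≤ Y / s := Nat.div_pos (by omega) hs1
  calc Y ≤ s * (Y / s) + s * 1 := by omega
    _ ≤ s * (Y / s) + s * (Y / s) := by
        have := Nat.mul_le_mul_left s h7
        omega
    _ = (2 * s) * (Y / s) := by ring
    _ ≤ H X * (Y / s) := Nat.mul_le_mul_right _ h2
    _ ≤ _ := Nat.mul_le_mul_left _ h3

end

theorem main (H : ℕ → ℕ) (hH : Tendsto H atTop atTop) : ∃ g : ℕ →*₀ ℤ,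
    (∀ n, n ≠ 0 → g n = 1 ∨ g n = -1) ∧
    (∀ q : ℕ, 0 < q → ∀ χ : DirichletCharacter ℂ q, ∀ B : ℝ, ∃ X₀ : ℝ, ∀ X : ℝ, X₀ ≤ X →
      ∀ t : ℝ, |t| ≤ X → B ≤ Pool.Agent.V8H33.SR.D2 (fun n => ((g n : ℤ) : ℂ)) q χ t X) ∧
    (∀ (k : ℕ) (h : Fin k → ℕ), 0 < k → Function.Injective h →
      Tendsto (av g h) atTop (nhds 0)) ∧
    ∃ s : ℕ → ℕ, (∀ᶠ X in atTop, 1 ≤ s X ∧ s X ≤ H X) ∧
      (∀ k : ℕ, Even k → ∀ ε : ℝ, 0 < ε → ∀ᶠ X in atTop, ∀ h : Fin k → ℕ,
        (∀ i, s X ∣ h i ∧ h i ≤ X) → |av g h X - 1| ≤ ε) ∧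
      (∀ k : ℕ, Even k → ∀ j : Fin k → ℕ,
        Tendsto (fun X => lav g (fun i => j i * s X) X) atTop (nhds 1)) ∧
      (∀ ε : ℝ, 0 < ε → ∀ᶠ X : ℕ in atTop, ∀ Y : ℕ, H X ≤ Y → Y ≤ X →
        Y ≤ H X * ((Icc 1 Y).filter (fun h => 1 - ε ≤ av g ![0, h] X)).card) := by
  have h1 : ∀ y : ℕ, ∃ N : ℕ, ∀ X : ℕ, N ≤ X → y ≤ H X := by
    intro y
    exact eventually_atTop.1 (hH.eventually_ge_atTop y)
  choose thr hthr using h1
  obtain ⟨z, b, hB⟩ := exists_blocks (fun i x => max (x ^ (i + 1))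
    (max (thr (2 * Lf i x)) (Lf i x ^ (i + 1))))
  have hZ : ∀ i x : ℕ, x ^ (i + 1) ≤ max (x ^ (i + 1))
    (max (thr (2 * Lf i x)) (Lf i x ^ (i + 1))) := fun i x => le_max_left _ _
  have hZ' : ∀ i x : ℕ, Lf i x ^ (i + 1) ≤ max (x ^ (i + 1))
    (max (thr (2 * Lf i x)) (Lf i x ^ (i + 1))) :=
    fun i x => (le_max_right _ _).trans (le_max_right _ _)
  have hs : ∀ᶠ X : ℕ in atTop, 2 * sh z b X ≤ H X := by
    filter_upwards [eventually_ge_atTop (z 1)] with X hX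
    apply hthr
    have e1 := hB.next (idx z X)
    exact (((le_max_left _ _).trans (le_max_right _ _)).trans e1).trans (idx_le X hX)
  refine ⟨gP (PS z b), fun n hn => gP_val _ hn, fun q hq χ B => condN hB hZ q hq χ B,
    fun k h hk hinj => elliott hB hZ k hk h hinj, sh z b, ?_, ?_, ?_, ?_⟩
  · filter_upwards [hs] with X hX
    have := Lf_pos (idx z X) (b (idx z X))
    exact ⟨this, by omega⟩
  · exact fun k hk ε hε => av_ev hB hZ hk ε hε
  · exact fun k hk j => lav_tendsto hB hZ hZ' hk j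
  · exact fun ε hε => many hB hZ H hs ε hε

end Pool.Agent.V8H33.NU
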