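import Pool.Agent.H970R2.X.Cell
import Pool.Agent.H970R2.X.Rap

/-!
# Lower bounds for `∑ (1 - cos (t log p)) / p` over the primes `p ≡ 1 mod q` in `(X ^ (1 / M), X]`,
uniformly in `δ ≤ |t| ≤ X`
-/

set_option autoImplicit false

namespace Pool.Agent.V8H33.NU

open Finset Filter Pool.Agent.H376R2.MR Pool.Agent.H970R2.X

/-- the sum of `(1 - cos (t log p)) / p` over the primes `p ≡ 1 mod q` in `(Y, X]` -/
noncomputable def S1 (q : ℕ) (t Y X : ℝ) : ℝ :=
  ∑ p ∈ (Finset.Iic ⌊X⌋₊).filter (fun p : ℕ => p.Prime ∧ p % q = 1 % q ∧ Y < p),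
    (1 - Real.cos (t * Real.log p)) / (p : ℝ)

theorem S1_term_nonneg (t : ℝ) (p : ℕ) : 0 ≤ (1 - Real.cos (t * Real.log p)) / (p : ℝ) := by
  apply div_nonneg _ (by positivity)
  linarith [Real.cos_le_one (t * Real.log p)]

theorem S1_nonneg (q : ℕ) (t Y X : ℝ) : 0 ≤ S1 q t Y X :=
  sum_nonneg fun p _ => S1_term_nonneg t p

theorem norm_expI_sub (a b : ℝ) :
    ‖Complex.exp (-(a : ℂ) * Complex.I) - Complex.exp (-(b : ℂ) * Complex.I)‖ ≤ |a - b| := by
  have h1 : Complex.exp (-(a : ℂ) * Complex.I) - Complex.exp (-(b : ℂ) * Complex.I) =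
      Complex.exp (-(b : ℂ) * Complex.I) * (Complex.exp (Complex.I * ((b - a : ℝ) : ℂ)) - 1) := by
    rw [mul_sub, mul_one, ← Complex.exp_add]
    congr 2
    push_cast
    ring
  have h2 : ‖Complex.exp (-(b : ℂ) * Complex.I)‖ = 1 := by
    have := Complex.norm_exp_ofReal_mul_I (-b)
    push_cast at this
    exact this
  rw [h1, norm_mul, h2, one_mul]
  have h3 := Real.norm_exp_I_mul_ofReal_sub_one_le (x := b - a)
  rw [Real.norm_eq_abs, abs_sub_comm] at h3
  exact h3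

/-- one cell -/
theorem cell_t (P : ℕ → Prop) (c' : ℝ) (H v : ℕ) (hH : 1 ≤ H) (hHc : 2 / c' ≤ H) (hc' : 0 < c')
    (t : ℝ) (hv : ‖PPp P H v ⌊t⌋‖ ≤ (1 - c') * mmp P H v) :
    c' / 2 * mmp P H v ≤ ∑ p ∈ cellP P H v, (1 - Real.cos (t * Real.log p)) / (p : ℝ) := by
  classical
  set k := ⌊t⌋ with hk
  set u := t - k with hu
  have hu0 : 0 ≤ u := by rw [hu]; linarith [Int.floor_le t]
  have hu1 : u ≤ 1 := by rw [hu]; linarith [Int.lt_floor_add_one t]
  have hH0 : (0:ℝ) < H := by exact_mod_cast hH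
  set z := Complex.exp (-((u * ((v:ℝ) / H) : ℝ) : ℂ) * Complex.I) with hz
  have hz1 : ‖z‖ = 1 := by
    have := Complex.norm_exp_ofReal_mul_I (-(u * ((v:ℝ) / H)))
    push_cast at this
    rw [hz]
    push_cast
    exact this
  have h1 : ∑ p ∈ cellP P H v, Complex.exp (-((t * Real.log p : ℝ) : ℂ) * Complex.I) / (p : ℂ) =
      z * PPp P H v k + ∑ p ∈ cellP P H v, ch k (Real.log p) / (p : ℂ) *
        (Complex.exp (-((u * Real.log p : ℝ) : ℂ) * Complex.I) - z) := by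
    rw [PPp, mul_sum, ← sum_add_distrib]
    apply sum_congr rfl
    intro p _
    have e1 : Complex.exp (-((t * Real.log p : ℝ) : ℂ) * Complex.I) =
        ch k (Real.log p) * Complex.exp (-((u * Real.log p : ℝ) : ℂ) * Complex.I) := by
      unfold ch
      rw [← Complex.exp_add]
      congr 1
      have : t = k + u := by rw [hu]; ring
      rw [this]
      push_cast
      ring
    rw [e1]
    ring
  have h2 : ‖∑ p ∈ cellP P H v, ch k (Real.log p) / (p : ℂ) *
        (Complex.exp (-((u * Real.log p : ℝ) : ℂ) * Complex.I) - z)‖ ≤ c' / 2 * mmp P H v := by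
    refine (norm_sum_le _ _).trans ?_
    rw [mmp, mul_sum]
    apply sum_le_sum
    intro p hp
    have hp' : p ∈ cell H v := (mem_filter.1 hp).1
    unfold cell at hp'
    rw [mem_filter] at hp'
    obtain ⟨_, _, hp1, hp2⟩ := hp'
    have hch : ‖ch k (Real.log p)‖ = 1 := by
      unfold ch
      have := Complex.norm_exp_ofReal_mul_I (-((k:ℝ) * Real.log p))
      push_cast at this
      push_cast
      exact this
    rw [norm_mul, norm_div, hch, Complex.norm_natCast]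
    have e2 := norm_expI_sub (u * Real.log p) (u * ((v:ℝ) / H))
    have e3 : |u * Real.log p - u * ((v:ℝ) / H)| ≤ c' / 2 := by
      rw [← mul_sub, abs_mul, abs_of_nonneg hu0, abs_of_nonneg (by linarith)]
      have e4 : Real.log p - (v:ℝ) / H ≤ 1 / H := by
        have : ((v:ℝ) + 1) / H = v / H + 1 / H := by ring
        linarith
      have e5 : 1 / (H:ℝ) ≤ c' / 2 := by
        rw [div_le_div_iff₀ hH0 (by norm_num), one_mul]
        rw [div_le_iff₀ hc'] at hHc
        linarith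
      calc u * (Real.log p - (v:ℝ) / H) ≤ 1 * (1 / H) :=
            mul_le_mul hu1 e4 (by linarith) (by norm_num)
        _ ≤ c' / 2 := by rw [one_mul]; exact e5
    have e6 : ‖Complex.exp (-((u * Real.log p : ℝ) : ℂ) * Complex.I) - z‖ ≤ c' / 2 := e2.trans e3
    calc 1 / (p:ℝ) * ‖Complex.exp (-((u * Real.log p : ℝ) : ℂ) * Complex.I) - z‖ ≤
        1 / (p:ℝ) * (c' / 2) := mul_le_mul_of_nonneg_left e6 (by positivity)
      _ = _ := by ring
  have h3 : ‖∑ p ∈ cellP P H v, Complex.exp (-((t * Real.log p : ℝ) : ℂ) * Complex.I) / (p : ℂ)‖ ≤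
      (1 - c' / 2) * mmp P H v := by
    rw [h1]
    refine (norm_add_le _ _).trans ?_
    rw [norm_mul, hz1, one_mul]
    linarith
  have h4 : (∑ p ∈ cellP P H v, Complex.exp (-((t * Real.log p : ℝ) : ℂ) * Complex.I) / (p : ℂ)).re
      = ∑ p ∈ cellP P H v, Real.cos (t * Real.log p) / (p : ℝ) := by
    rw [Complex.re_sum]
    apply sum_congr rfl
    intro p _
    have : ((p:ℕ):ℂ) = ((p:ℝ):ℂ) := by push_cast; rfl
    rw [this, Complex.div_ofReal_re]
    congr 1
    have e : -((t * Real.log p : ℝ) : ℂ) * Complex.I = ((-(t * Real.log p) : ℝ) : ℂ) * Complex.I := by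
      push_cast; ring
    rw [e, Complex.exp_ofReal_mul_I_re, Real.cos_neg]
  have h5 := Complex.re_le_norm
    (∑ p ∈ cellP P H v, Complex.exp (-((t * Real.log p : ℝ) : ℂ) * Complex.I) / (p : ℂ))
  rw [h4] at h5
  have h6 : ∑ p ∈ cellP P H v, (1 - Real.cos (t * Real.log p)) / (p : ℝ) =
      mmp P H v - ∑ p ∈ cellP P H v, Real.cos (t * Real.log p) / (p : ℝ) := by
    rw [mmp, ← sum_sub_distrib]
    apply sum_congr rfl
    intro p _
    ring
  rw [h6]
  linarith

/-- many cells -/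
theorem cells_le (q H v₀ v₁ : ℕ) (hH : 1 ≤ H) (t Y X : ℝ) (hY : 0 < Y) (hX : 1 ≤ X)
    (h0 : (H : ℝ) * Real.log Y < v₀) (h1 : (v₁ : ℝ) ≤ H * Real.log X) :
    ∑ v ∈ Ico v₀ v₁, ∑ p ∈ cellP (P1 q) H v, (1 - Real.cos (t * Real.log p)) / (p : ℝ) ≤
      S1 q t Y X := by
  classical
  have hH0 : (0:ℝ) < H := by exact_mod_cast hH
  have hdisj : ((Ico v₀ v₁ : Finset ℕ) : Set ℕ).PairwiseDisjoint (fun v => cellP (P1 q) H v) := by
    intro v _ v' _ hne
    rw [Function.onFun, Finset.disjoint_left]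
    intro p hp hp'
    have a1 := (mem_filter.1 hp).1
    have a2 := (mem_filter.1 hp').1
    unfold cell at a1 a2
    rw [mem_filter] at a1 a2
    obtain ⟨_, _, b1, b2⟩ := a1
    obtain ⟨_, _, c1, c2⟩ := a2
    have d1 : (v:ℝ) < v' + 1 := by
      have := lt_of_le_of_lt b1 c2
      rwa [div_lt_div_iff_of_pos_right hH0] at this
    have d2 : (v':ℝ) < v + 1 := by
      have := lt_of_le_of_lt c1 b2
      rwa [div_lt_div_iff_of_pos_right hH0] at this
    have d3 : v < v' + 1 := by exact_mod_cast d1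
    have d4 : v' < v + 1 := by exact_mod_cast d2
    omega
  rw [← sum_biUnion hdisj]
  unfold S1
  apply sum_le_sum_of_subset_of_nonneg
  · intro p hp
    rw [mem_biUnion] at hp
    obtain ⟨v, hv, hp⟩ := hp
    rw [mem_Ico] at hv
    have a0 := (mem_filter.1 hp).2
    have a1 := (mem_filter.1 hp).1
    unfold cell at a1
    rw [mem_filter] at a1
    obtain ⟨_, hpp, b1, b2⟩ := a1
    have hp0 : (0:ℝ) < p := by exact_mod_cast hpp.pos
    rw [mem_filter, mem_Iic]
    refine ⟨Nat.le_floor ?_, hpp, a0, ?_⟩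
    · have e1 : ((v:ℝ) + 1) / H ≤ Real.log X := by
        rw [div_le_iff₀ hH0]
        have : ((v:ℝ) + 1) ≤ v₁ := by exact_mod_cast hv.2
        linarith
      have e2 : Real.log p < Real.log X := lt_of_lt_of_le b2 e1
      exact ((Real.log_lt_log_iff hp0 (by linarith)).1 e2).le
    · have e1 : Real.log Y < (v:ℝ) / H := by
        rw [lt_div_iff₀ hH0]
        have : (v₀:ℝ) ≤ v := by exact_mod_cast hv.1
        linarith
      exact (Real.log_lt_log_iff hY hp0).1 (lt_of_lt_of_le e1 b1)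
  · intro p _ _
    exact S1_term_nonneg t p

theorem kl (q : ℕ) (hq : 0 < q) : ∃ κ : ℝ, 0 < κ ∧ ∃ C T₀ : ℝ, 0 ≤ C ∧ ∀ M : ℕ, 1 ≤ M →
    ∃ X₀ : ℝ, ∀ X : ℝ, X₀ ≤ X → ∀ t : ℝ, T₀ ≤ |t| → |t| ≤ X →
      κ * Real.log M - C ≤ S1 q t (X ^ (1 / (M : ℝ))) X := by
  obtain ⟨c, hc, hR⟩ := rich_ap q hq
  obtain ⟨c', hc', hc'1, hcell⟩ := cell_bound_gen (P1 q) c hc hR
  obtain ⟨C₀, hC₀⟩ := hR.1
  set H : ℕ := ⌈2 / c'⌉₊ with hHdef
  have hHc : 2 / c' ≤ H := Nat.le_ceil _
  have hH : 1 ≤ H := by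
    rw [hHdef]
    exact Nat.ceil_pos.2 (by positivity)
  have hH0 : (0:ℝ) < H := by exact_mod_cast hH
  obtain ⟨T1, v1, hT1⟩ := hcell 1 H hH
  refine ⟨c' / 2 * c, by positivity, c' / 2 * (c * Real.log 4 + max C₀ 0), T1 + 1, by
    have := Real.log_nonneg (by norm_num : (1:ℝ) ≤ 4)
    have := le_max_right C₀ 0
    positivity, fun M hM => ?_⟩
  have hM0 : (0:ℝ) < M := by exact_mod_cast hM
  rcases Nat.lt_or_ge M 5 with hM5 | hM5
  · refine ⟨0, fun X _ t _ _ => ?_⟩
    refine le_trans ?_ (S1_nonneg _ _ _ _)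
    have h1 : Real.log M ≤ Real.log 4 := by
      apply Real.log_le_log hM0
      have : M ≤ 4 := by omega
      exact_mod_cast this
    have h2 := le_max_right C₀ 0
    have h3 : c' / 2 * c * Real.log M ≤ c' / 2 * c * Real.log 4 :=
      mul_le_mul_of_nonneg_left h1 (by positivity)
    have h4 : 0 ≤ c' / 2 * max C₀ 0 := by positivity
    linarith [mul_add (c' / 2) (c * Real.log 4) (max C₀ 0), mul_assoc (c' / 2) c (Real.log 4)]
  obtain ⟨T2, v2, hT2⟩ := hcell (2 * M) H hH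
  have hM5' : (5:ℝ) ≤ M := by exact_mod_cast hM5
  -- the threshold
  obtain ⟨A, hA⟩ : ∃ A : ℝ, A = max (max (v1 : ℝ) v2) (max (M : ℝ) (Real.log (T2 + 1))) := ⟨_, rfl⟩
  have hA1 : (v1:ℝ) ≤ A := by rw [hA]; exact (le_max_left _ _).trans (le_max_left _ _)
  have hA2 : (v2:ℝ) ≤ A := by rw [hA]; exact (le_max_right _ _).trans (le_max_left _ _)
  have hA3 : (M:ℝ) ≤ A := by rw [hA]; exact (le_max_left _ _).trans (le_max_right _ _)
  have hA4 : Real.log (T2 + 1) ≤ A := by rw [hA]; exact (le_max_right _ _).trans (le_max_right _ _)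
  refine ⟨Real.exp (M * A), fun X hX t ht1 ht2 => ?_⟩
  have hA0 : 0 < A := by linarith
  have hX1 : 1 ≤ X := by
    refine le_trans ?_ hX
    rw [← Real.exp_zero]
    exact Real.exp_le_exp.2 (by positivity)
  have hX0 : 0 < X := by linarith
  have hlX : M * A ≤ Real.log X := by
    rw [Real.le_log_iff_exp_le hX0]
    exact hX
  set Y := X ^ (1 / (M : ℝ)) with hY
  have hY0 : 0 < Y := Real.rpow_pos_of_pos hX0 _
  have hlY : Real.log Y = Real.log X / M := by
    rw [hY, Real.log_rpow hX0]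
    ring
  have hlYA : A ≤ Real.log Y := by
    rw [hlY, le_div_iff₀ hM0]
    linarith
  set w0 : ℕ := ⌊(H:ℝ) * Real.log Y⌋₊ + 1 with hw0
  set w1 : ℕ := ⌊(H:ℝ) * Real.log X⌋₊ with hw1
  have hHY : (H:ℝ) * Real.log Y < w0 := by
    rw [hw0]
    push_cast
    exact Nat.lt_floor_add_one _
  have hH1 : (1:ℝ) ≤ H := by exact_mod_cast hH
  have hY5 : 5 ≤ Real.log Y := by linarith
  have hHY5 : 5 ≤ H * Real.log Y := by nlinarith
  have hw0' : (w0:ℝ) ≤ 2 * (H * Real.log Y) := by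
    rw [hw0]
    push_cast
    have := Nat.floor_le (show (0:ℝ) ≤ H * Real.log Y by linarith)
    linarith
  have hXM : Real.log X = M * Real.log Y := by
    rw [hlY]
    field_simp
  have hw1' : M / 2 * (H * Real.log Y) ≤ w1 := by
    have e1 := Nat.lt_floor_add_one ((H:ℝ) * Real.log X)
    rw [← hw1] at e1
    have e2 : (H:ℝ) * Real.log X = M * (H * Real.log Y) := by rw [hXM]; ring
    rw [e2] at e1
    nlinarith
  have hw1'' : (w1:ℝ) ≤ H * Real.log X :=
    Nat.floor_le (by rw [hXM]; nlinarith)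
  have hw01 : (w0:ℝ) ≤ w1 := by nlinarith
  have hw01' : w0 ≤ w1 := by exact_mod_cast hw01
  have hHw0 : H ≤ w0 := by
    have : (H:ℝ) ≤ w0 := by nlinarith
    exact_mod_cast this
  have hw0pos : (0:ℝ) < w0 := by linarith
  have hW := hC₀ H w0 w1 hH hHw0 hw01'
  have hratio : Real.log M - Real.log 4 ≤ Real.log ((w1:ℝ) / w0) := by
    rw [← Real.log_div (by positivity) (by norm_num)]
    apply Real.log_le_log (by positivity)
    rw [div_le_div_iff₀ (by norm_num) hw0pos]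
    nlinarith
  refine le_trans ?_ (cells_le q H w0 w1 hH t Y X hY0 hX1 hHY hw1'')
  have hmain : ∀ v ∈ Ico w0 w1, c' / 2 * mmp (P1 q) H v ≤
      ∑ p ∈ cellP (P1 q) H v, (1 - Real.cos (t * Real.log p)) / (p : ℝ) := by
    intro v hv
    rw [mem_Ico] at hv
    have hvY : (H:ℝ) * Real.log Y ≤ v := by
      have : (w0:ℝ) ≤ v := by exact_mod_cast hv.1
      linarith
    have hvA : A ≤ v := by nlinarith
    have hvYdiv : Real.log Y ≤ (v:ℝ) / H := by
      rw [le_div_iff₀ hH0]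
      linarith
    apply cell_t (P1 q) c' H v hH hHc hc' t
    have hf1 := Int.floor_le t
    have hf2 := Int.lt_floor_add_one t
    have hk1 : |((⌊t⌋ : ℤ) : ℝ)| ≤ |t| + 1 := by
      have e1 : ((⌊t⌋ : ℤ) : ℝ) = t - (t - ⌊t⌋) := by ring
      rw [e1]
      refine (abs_sub _ _).trans ?_
      rw [abs_of_nonneg (show (0:ℝ) ≤ t - ⌊t⌋ by linarith)]
      linarith
    have hk2 : |t| - 1 ≤ |((⌊t⌋ : ℤ) : ℝ)| := by
      have e1 : t = ((⌊t⌋ : ℤ) : ℝ) + (t - ⌊t⌋) := by ring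
      have e2 := abs_add_le ((⌊t⌋ : ℤ) : ℝ) (t - ⌊t⌋)
      rw [← e1, abs_of_nonneg (show (0:ℝ) ≤ t - ⌊t⌋ by linarith)] at e2
      linarith
    rcases le_or_gt (T2 : ℝ) |((⌊t⌋ : ℤ) : ℝ)| with hcase | hcase
    · apply hT2 v (by
        have : (v2:ℝ) ≤ v := by linarith
        exact_mod_cast this) _ hcase
      have e1 : |((⌊t⌋ : ℤ) : ℝ)| ≤ X * X := by
        have : 2 ≤ X := by
          have : Real.exp 1 ≤ X := le_trans (Real.exp_le_exp.2 (by nlinarith)) hX
          linarith [Real.exp_one_gt_d9]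
        nlinarith
      refine e1.trans ?_
      have e2 : X * X = Real.exp (2 * Real.log X) := by
        rw [two_mul, Real.exp_add, Real.exp_log hX0]
      rw [e2]
      apply Real.exp_le_exp.2
      push_cast
      rw [mul_div_assoc, hXM]
      nlinarith
    · apply hT1 v (by
        have : (v1:ℝ) ≤ v := by linarith
        exact_mod_cast this) _ (by linarith)
      refine hcase.le.trans ?_
      have e1 : (T2:ℝ) ≤ Real.exp A := by
        have : (T2:ℝ) + 1 ≤ Real.exp A := by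
          rw [← Real.log_le_iff_le_exp (by positivity)]
          exact hA4
        linarith
      refine e1.trans ?_
      apply Real.exp_le_exp.2
      push_cast
      rw [one_mul]
      linarith
  calc c' / 2 * c * Real.log M - c' / 2 * (c * Real.log 4 + max C₀ 0) =
      c' / 2 * (c * (Real.log M - Real.log 4) - max C₀ 0) := by ring
    _ ≤ c' / 2 * (c * Real.log ((w1:ℝ) / w0) - C₀) := by
        apply mul_le_mul_of_nonneg_left _ (by positivity)
        have e1 := mul_le_mul_of_nonneg_left hratio hc.le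
        have e2 := le_max_left C₀ 0
        linarith
    _ ≤ c' / 2 * WWp (P1 q) H w0 w1 := mul_le_mul_of_nonneg_left hW (by positivity)
    _ = ∑ v ∈ Ico w0 w1, c' / 2 * mmp (P1 q) H v := by rw [WWp, mul_sum]
    _ ≤ _ := sum_le_sum hmain

theorem cos_double (x : ℝ) : 1 - Real.cos (2 * x) ≤ 4 * (1 - Real.cos x) := by
  rw [Real.cos_two_mul]
  nlinarith [Real.cos_le_one x, Real.neg_one_le_cos x, sq_nonneg (1 - Real.cos x)]

theorem cos_pow2 (r : ℕ) (x : ℝ) : 1 - Real.cos (2 ^ r * x) ≤ 4 ^ r * (1 - Real.cos x) := by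
  induction r with
  | zero => simp
  | succ r ih =>
    have h1 := cos_double (2 ^ r * x)
    have h2 : (2:ℝ) ^ (r + 1) * x = 2 * (2 ^ r * x) := by ring
    rw [h2]
    have h3 : (4:ℝ) ^ (r + 1) * (1 - Real.cos x) = 4 * (4 ^ r * (1 - Real.cos x)) := by ring
    rw [h3]
    linarith

theorem S1_pow2 (q r : ℕ) (t Y X : ℝ) : S1 q (2 ^ r * t) Y X ≤ 4 ^ r * S1 q t Y X := by
  unfold S1
  rw [mul_sum]
  apply sum_le_sum
  intro p _
  have h1 := cos_pow2 r (t * Real.log p)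
  rw [← mul_assoc] at h1
  rw [← mul_div_assoc]
  exact div_le_div_of_nonneg_right h1 (by positivity)

theorem kl2 (q : ℕ) (hq : 0 < q) (δ : ℝ) (hδ : 0 < δ) : ∃ κ : ℝ, 0 < κ ∧ ∃ C : ℝ, ∀ M : ℕ, 1 ≤ M →
    ∃ X₀ : ℝ, ∀ X : ℝ, X₀ ≤ X → ∀ t : ℝ, δ ≤ |t| → |t| ≤ X →
      κ * Real.log M - C ≤ S1 q t (X ^ (1 / (M : ℝ))) X := by
  obtain ⟨κ, hκ, C, T₀, hC, hkl⟩ := kl q hq
  obtain ⟨r, hr⟩ : ∃ r : ℕ, T₀ ≤ 2 ^ r * δ := by
    obtain ⟨r, hr⟩ := pow_unbounded_of_one_lt (T₀ / δ) (by norm_num : (1:ℝ) < 2)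
    exact ⟨r, by rw [div_lt_iff₀ hδ] at hr; exact hr.le⟩
  refine ⟨κ / 4 ^ r, by positivity, C, fun M hM => ?_⟩
  obtain ⟨X₀, hX₀⟩ := hkl M hM
  refine ⟨max X₀ (2 ^ r * |T₀|), fun X hX t ht1 ht2 => ?_⟩
  have hlM : 0 ≤ Real.log M := Real.log_nonneg (by exact_mod_cast hM)
  have h41 : (1:ℝ) ≤ 4 ^ r := one_le_pow₀ (by norm_num)
  have hs : κ / 4 ^ r * Real.log M ≤ κ * Real.log M := by
    apply mul_le_mul_of_nonneg_right _ hlM
    exact div_le_self hκ.le h41
  rcases le_or_gt T₀ |t| with h | h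
  · have := hX₀ X ((le_max_left _ _).trans hX) t h ht2
    linarith
  · have h2r : (0:ℝ) < 2 ^ r := by positivity
    have habs : |2 ^ r * t| = 2 ^ r * |t| := by
      rw [abs_mul, abs_of_pos h2r]
    have h1 := hX₀ X ((le_max_left _ _).trans hX) (2 ^ r * t) (by
      rw [habs]
      exact hr.trans (mul_le_mul_of_nonneg_left ht1 h2r.le)) (by
      rw [habs]
      refine le_trans ?_ ((le_max_right _ _).trans hX)
      apply mul_le_mul_of_nonneg_left _ h2r.le
      exact h.le.trans (le_abs_self _))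
    have h2 := S1_pow2 q r t (X ^ (1 / (M : ℝ))) X
    have h3 : κ * Real.log M - C ≤ 4 ^ r * S1 q t (X ^ (1 / (M : ℝ))) X := h1.trans h2
    have h4 : (κ * Real.log M - C) / 4 ^ r ≤ S1 q t (X ^ (1 / (M : ℝ))) X := by
      rw [div_le_iff₀ (by positivity)]
      linarith
    have h5 : C / 4 ^ r ≤ C := div_le_self hC h41
    have h6 : (κ * Real.log M - C) / 4 ^ r = κ / 4 ^ r * Real.log M - C / 4 ^ r := by ring
    linarith

end Pool.Agent.V8H33.NU
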