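import Pool.Agent.V8H33.NU.KL

/-!
# Blocks of primes
-/

set_option autoImplicit false

namespace Pool.Agent.V8H33.NU

open Finset Filter

/-- the sum of the reciprocals of the primes `p ≡ 1 mod q` in `(z, N]` -/
noncomputable def RS (q z N : ℕ) : ℝ :=
  ∑ p ∈ (Ioc z N).filter (fun p => p.Prime ∧ p % q = 1 % q), 1 / (p : ℝ)

theorem RS_unbounded (q : ℕ) (hq : 0 < q) (z : ℕ) (B : ℝ) : ∃ N : ℕ, B ≤ RS q z N := by
  obtain ⟨κ, hκ, C, T₀, hC, hkl⟩ := kl q hq
  obtain ⟨M, hM⟩ : ∃ M : ℕ, (2 * B + C) / κ ≤ Real.log M := by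
    have := (Real.tendsto_log_atTop.comp tendsto_natCast_atTop_atTop).eventually_ge_atTop
      ((2 * B + C) / κ)
    obtain ⟨M, hM⟩ := this.exists
    exact ⟨M, hM⟩
  obtain ⟨X₀, hX₀⟩ := hkl (M + 1) (by omega)
  obtain ⟨X, hX⟩ : ∃ X : ℝ, X = max (max X₀ T₀) (((z : ℝ) + 1) ^ (M + 1)) := ⟨_, rfl⟩
  have h1 : X₀ ≤ X := by rw [hX]; exact (le_max_left _ _).trans (le_max_left _ _)
  have h2 : T₀ ≤ X := by rw [hX]; exact (le_max_right _ _).trans (le_max_left _ _)
  have h3 : ((z : ℝ) + 1) ^ (M + 1) ≤ X := by rw [hX]; exact le_max_right _ _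
  have hX0 : 0 < X := lt_of_lt_of_le (by positivity) h3
  have habs : |X| = X := abs_of_pos hX0
  have h4 := hX₀ X h1 X (by rw [habs]; exact h2) (by rw [habs])
  refine ⟨⌊X⌋₊, ?_⟩
  have h5 : S1 q X (X ^ (1 / ((M + 1 : ℕ) : ℝ))) X ≤ 2 * RS q z ⌊X⌋₊ := by
    unfold S1 RS
    rw [mul_sum]
    refine le_trans (b := ∑ p ∈ (Finset.Iic ⌊X⌋₊).filter (fun p : ℕ => p.Prime ∧ p % q = 1 % q ∧
      X ^ (1 / ((M + 1 : ℕ) : ℝ)) < p), 2 * (1 / (p : ℝ))) ?_ ?_
    · apply sum_le_sum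
      intro p _
      rw [mul_one_div]
      apply div_le_div_of_nonneg_right _ (by positivity)
      linarith [Real.neg_one_le_cos (X * Real.log p)]
    · apply sum_le_sum_of_subset_of_nonneg
      · intro p hp
        rw [mem_filter, mem_Iic] at hp
        rw [mem_filter, mem_Ioc]
        refine ⟨⟨?_, hp.1⟩, hp.2.1, hp.2.2.1⟩
        have e1 : (z : ℝ) + 1 ≤ X ^ (1 / ((M + 1 : ℕ) : ℝ)) := by
          have e2 : (((z : ℝ) + 1) ^ (M + 1)) ^ (1 / ((M + 1 : ℕ) : ℝ)) = (z : ℝ) + 1 := by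
            rw [one_div]
            exact Real.pow_rpow_inv_natCast (by positivity) (by omega)
          rw [← e2]
          exact Real.rpow_le_rpow (by positivity) h3 (by positivity)
        have e3 : (z : ℝ) < p := by linarith [hp.2.2.2]
        exact_mod_cast e3
      · intro p _ _
        positivity
  have h6 : Real.log M ≤ Real.log ((M + 1 : ℕ) : ℝ) := by
    rcases Nat.eq_zero_or_pos M with h | h
    · rw [h]; simp
    · apply Real.log_le_log (by exact_mod_cast h)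
      push_cast
      linarith
  have h7 : 2 * B + C ≤ κ * Real.log ((M + 1 : ℕ) : ℝ) := by
    rw [div_le_iff₀ hκ] at hM
    nlinarith
  linarith

theorem exists_block (q : ℕ) (hq : 0 < q) (z : ℕ) (θ : ℝ) (hθ : 0 < θ)
    (hzθ : 1 / (z : ℝ) ≤ θ) (hz : 1 ≤ z) : ∃ b : ℕ, z < b ∧ θ ≤ RS q z b ∧ RS q z b ≤ 2 * θ := by
  classical
  have hex := RS_unbounded q hq z θ
  set b := Nat.find hex with hb
  have hb1 : θ ≤ RS q z b := Nat.find_spec hex
  have hzb : z < b := by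
    by_contra hcon
    push Not at hcon
    have : RS q z b = 0 := by
      unfold RS
      rw [Ioc_eq_empty (by omega)]
      simp
    linarith
  refine ⟨b, hzb, hb1, ?_⟩
  have hb2 : RS q z (b - 1) < θ := by
    have := Nat.find_min hex (m := b - 1) (by omega)
    exact lt_of_not_ge this
  have h3 : RS q z b ≤ RS q z (b - 1) + 1 / b := by
    unfold RS
    have h4 : (Ioc z b).filter (fun p => p.Prime ∧ p % q = 1 % q) ⊆
        insert b ((Ioc z (b - 1)).filter (fun p => p.Prime ∧ p % q = 1 % q)) := by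
      intro p hp
      rw [mem_filter, mem_Ioc] at hp
      rw [mem_insert, mem_filter, mem_Ioc]
      rcases Nat.lt_or_ge p b with h | h
      · right; exact ⟨⟨hp.1.1, by omega⟩, hp.2⟩
      · left; omega
    refine (sum_le_sum_of_subset_of_nonneg h4 (fun p _ _ => by positivity)).trans ?_
    rw [sum_insert (by
      rw [mem_filter, mem_Ioc]
      omega)]
    linarith
  have h5 : 1 / (b : ℝ) ≤ 1 / z := by
    apply one_div_le_one_div_of_le (by exact_mod_cast hz)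
    exact_mod_cast hzb.le
  linarith

/-- the sequence of the blocks -/
structure Blocks (Z : ℕ → ℕ → ℕ) (z b : ℕ → ℕ) : Prop where
  two : ∀ i, 2 * (i + 1) ≤ z i
  lt : ∀ i, z i < b i
  next : ∀ i, Z i (b i) ≤ z (i + 1)
  next' : ∀ i, b i ≤ z (i + 1)
  lower : ∀ i : ℕ, 1 / (2 * ((i : ℝ) + 1)) ≤ RS (i + 1).factorial (z i) (b i)
  upper : ∀ i : ℕ, RS (i + 1).factorial (z i) (b i) ≤ 1 / ((i : ℝ) + 1)

theorem exists_blocks (Z : ℕ → ℕ → ℕ) : ∃ z b : ℕ → ℕ, Blocks Z z b := by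
  have h1 : ∀ i z : ℕ, ∃ b : ℕ, 2 * (i + 1) ≤ z → z < b ∧
      1 / (2 * ((i : ℝ) + 1)) ≤ RS (i + 1).factorial z b ∧
      RS (i + 1).factorial z b ≤ 1 / ((i : ℝ) + 1) := by
    intro i z
    by_cases h : 2 * (i + 1) ≤ z
    · have hz : (2:ℝ) * ((i : ℝ) + 1) ≤ z := by exact_mod_cast h
      obtain ⟨b, hb1, hb2, hb3⟩ := exists_block (i + 1).factorial (Nat.factorial_pos _) z
        (1 / (2 * ((i : ℝ) + 1))) (by positivity)
        (one_div_le_one_div_of_le (by positivity) hz) (by omega)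
      refine ⟨b, fun _ => ⟨hb1, hb2, hb3.trans (le_of_eq ?_)⟩⟩
      field_simp
    · exact ⟨0, fun h' => absurd h' h⟩
  choose β hβ using h1
  set zz : ℕ → ℕ := fun n => Nat.rec 2 (fun i z => max (2 * (i + 2)) (max (β i z) (Z i (β i z)))) n
    with hzz
  have hz0 : zz 0 = 2 := rfl
  have hz1 : ∀ i, zz (i + 1) = max (2 * (i + 2)) (max (β i (zz i)) (Z i (β i (zz i)))) :=
    fun i => rfl
  have h2 : ∀ i, 2 * (i + 1) ≤ zz i := by
    intro i
    cases i with
    | zero => rw [hz0]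
    | succ i => rw [hz1]; exact le_max_left _ _
  refine ⟨zz, fun i => β i (zz i), ⟨h2, fun i => (hβ i _ (h2 i)).1, fun i => ?_, fun i => ?_,
    fun i => (hβ i _ (h2 i)).2.1, fun i => (hβ i _ (h2 i)).2.2⟩⟩
  · rw [hz1]
    exact (le_max_right _ _).trans (le_max_right _ _)
  · rw [hz1]
    exact (le_max_left _ _).trans (le_max_right _ _)

/-- the set of primes -/
def PS (z b : ℕ → ℕ) : Set ℕ :=
  {p | ∃ i, z i < p ∧ p ≤ b i ∧ p.Prime ∧ p % (i + 1).factorial = 1 % (i + 1).factorial}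

section

variable {Z : ℕ → ℕ → ℕ} {z b : ℕ → ℕ}

theorem Blocks.zmono (h : Blocks Z z b) : StrictMono z :=
  strictMono_nat_of_lt_succ fun i => lt_of_lt_of_le (h.lt i) (h.next' i)

theorem Blocks.bmono (h : Blocks Z z b) : StrictMono b :=
  strictMono_nat_of_lt_succ fun i => lt_of_le_of_lt (h.next' i) (h.lt (i + 1))

/-- the primes of the set in `(b i, z (i + 2)]` lie in the block `i + 1` -/
theorem Blocks.mem_one (h : Blocks Z z b) {p i : ℕ} (hp : p ∈ PS z b) (h1 : b i < p)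
    (h2 : p ≤ z (i + 2)) : p ∈ (Ioc (z (i + 1)) (b (i + 1))).filter (fun p => p.Prime ∧
      p % (i + 1 + 1).factorial = 1 % (i + 1 + 1).factorial) := by
  obtain ⟨j, hj1, hj2, hj3, hj4⟩ := hp
  have e1 : i < j := h.bmono.lt_iff_lt.1 (lt_of_lt_of_le h1 hj2)
  have e2 : j < i + 2 := h.zmono.lt_iff_lt.1 (lt_of_lt_of_le hj1 h2)
  have e3 : j = i + 1 := by omega
  subst e3
  rw [mem_filter, mem_Ioc]
  exact ⟨⟨hj1, hj2⟩, hj3, hj4⟩

open Classical in
/-- the sum over the primes of the set in `(b i, z (i + 2)]` -/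
theorem Blocks.sum_one (h : Blocks Z z b) (i : ℕ) (S : Finset ℕ)
    (hS : ∀ p ∈ S, p ∈ PS z b ∧ b i < p ∧ p ≤ z (i + 2)) :
    ∑ p ∈ S, 1 / (p : ℝ) ≤ 1 / ((i : ℝ) + 2) := by
  have h1 := h.upper (i + 1)
  refine le_trans ?_ (h1.trans (le_of_eq (by push_cast; ring)))
  unfold RS
  apply sum_le_sum_of_subset_of_nonneg
  · intro p hp
    obtain ⟨a1, a2, a3⟩ := hS p hp
    exact h.mem_one a1 a2 a3
  · intro p _ _
    positivity

open Classical in
/-- the sum over the primes of the set in `(b i, z (i + 3)]` -/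
theorem Blocks.sum_two (h : Blocks Z z b) (i : ℕ) (S : Finset ℕ)
    (hS : ∀ p ∈ S, p ∈ PS z b ∧ b i < p ∧ p ≤ z (i + 3)) :
    ∑ p ∈ S, 1 / (p : ℝ) ≤ 2 / ((i : ℝ) + 2) := by
  rw [← sum_filter_add_sum_filter_not S (fun p => p ≤ z (i + 2))]
  have h1 := h.sum_one i (S.filter (fun p => p ≤ z (i + 2))) (by
    intro p hp
    rw [mem_filter] at hp
    exact ⟨(hS p hp.1).1, (hS p hp.1).2.1, hp.2⟩)
  have h2 := h.sum_one (i + 1) (S.filter (fun p => ¬ p ≤ z (i + 2))) (by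
    intro p hp
    rw [mem_filter] at hp
    obtain ⟨a1, a2, a3⟩ := hS p hp.1
    refine ⟨a1, ?_, a3⟩
    obtain ⟨j, hj1, hj2, _, _⟩ := a1
    have e1 : i + 2 ≤ j := by
      by_contra hcon
      have : b j ≤ b (i + 1) := h.bmono.monotone (by omega)
      have h9 : b (i + 1) ≤ z (i + 2) := h.next' (i + 1)
      omega
    have e2 : z (i + 2) ≤ z j := h.zmono.monotone e1
    have h9 : b (i + 1) ≤ z (i + 2) := h.next' (i + 1)
    omega)
  have h3 : 1 / (((i + 1 : ℕ) : ℝ) + 2) ≤ 1 / ((i : ℝ) + 2) := by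
    apply one_div_le_one_div_of_le (by positivity)
    push_cast
    linarith
  have h4 : 2 / ((i : ℝ) + 2) = 1 / ((i : ℝ) + 2) + 1 / ((i : ℝ) + 2) := by ring
  linarith

/-- the set of primes is rich in all progressions `1 mod q` -/
theorem Blocks.div (h : Blocks Z z b) (q : ℕ) (hq : 0 < q) (B : ℝ) : ∃ S : Finset ℕ,
    (∀ p ∈ S, p ∈ PS z b ∧ p.Prime ∧ p % q = 1 % q) ∧ B ≤ ∑ p ∈ S, 1 / (p : ℝ) := by
  classical
  -- harmonic series
  obtain ⟨N, hN⟩ : ∃ N : ℕ, B ≤ ∑ i ∈ Ico q N, 1 / (2 * ((i : ℝ) + 1)) := by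
    have h1 : Tendsto (fun N : ℕ => ∑ i ∈ range N, 1 / ((i : ℝ) + 1)) atTop atTop :=
      Real.tendsto_sum_range_one_div_nat_succ_atTop
    obtain ⟨N, hN⟩ := (h1.eventually_ge_atTop
      (2 * B + ∑ i ∈ range q, 1 / ((i : ℝ) + 1))).and (eventually_ge_atTop q) |>.exists
    refine ⟨N, ?_⟩
    have h2 := sum_range_add_sum_Ico (fun i : ℕ => 1 / ((i : ℝ) + 1)) hN.2
    have h3 : ∑ i ∈ Ico q N, 1 / (2 * ((i : ℝ) + 1)) =
        (1 / 2) * ∑ i ∈ Ico q N, 1 / ((i : ℝ) + 1) := by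
      rw [mul_sum]
      apply sum_congr rfl
      intro i _
      rw [← one_div_mul_one_div]
    rw [h3]
    linarith [hN.1]
  refine ⟨(Ico q N).biUnion (fun i => (Ioc (z i) (b i)).filter (fun p => p.Prime ∧
    p % (i + 1).factorial = 1 % (i + 1).factorial)), ?_, ?_⟩
  · intro p hp
    rw [mem_biUnion] at hp
    obtain ⟨i, hi, hp⟩ := hp
    rw [mem_filter, mem_Ioc] at hp
    rw [mem_Ico] at hi
    refine ⟨⟨i, hp.1.1, hp.1.2, hp.2.1, hp.2.2⟩, hp.2.1, ?_⟩
    have hd : q ∣ (i + 1).factorial := Nat.dvd_factorial hq (by omega)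
    have := congrArg (fun x => x % q) hp.2.2
    simp only [Nat.mod_mod_of_dvd _ hd] at this
    exact this
  · rw [sum_biUnion]
    · refine hN.trans (sum_le_sum fun i _ => h.lower i)
    · intro i _ j _ hij
      rw [Function.onFun, Finset.disjoint_left]
      intro p hp hp'
      rw [mem_filter, mem_Ioc] at hp hp'
      rcases Nat.lt_or_gt_of_ne hij with h' | h'
      · have e1 : b i ≤ z (i + 1) := h.next' i
        have e2 : z (i + 1) ≤ z j := h.zmono.monotone h'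
        omega
      · have e1 : b j ≤ z (j + 1) := h.next' j
        have e2 : z (j + 1) ≤ z i := h.zmono.monotone h'
        omega

end

end Pool.Agent.V8H33.NU
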